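import Mathlib

/-! # A linear functional killing rows which are independent modulo two -/

namespace Pool.Agent.Work.MP_d45015_al.HW

open Finsupp

theorem exists_primitive (m : ℤ →₀ ℤ) (hm : m ≠ 0) :
    ∃ (c : ℤ) (m' : ℤ →₀ ℤ), c ≠ 0 ∧ m = c • m' ∧ ∃ s, ((m' s : ℤ) : ZMod 2) ≠ 0 := by
  classical
  set c := m.support.gcd m with hc
  have hdiv : ∀ s, c ∣ m s := by
    intro s
    by_cases hs : s ∈ m.support
    · exact Finset.gcd_dvd hs
    · rw [Finsupp.notMem_support_iff.1 hs]
      exact dvd_zero _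
  have hc0 : c ≠ 0 := by
    intro h0
    apply hm
    ext s
    have := hdiv s
    rw [h0, zero_dvd_iff] at this
    simpa using this
  refine ⟨c, m.mapRange (fun z => z / c) (by simp), hc0, ?_, ?_⟩
  · ext s
    simp only [Finsupp.smul_apply, Finsupp.mapRange_apply, smul_eq_mul]
    exact (Int.mul_ediv_cancel' (hdiv s)).symm
  · by_contra hcon
    push Not at hcon
    have h2 : ∀ s, 2 * c ∣ m s := by
      intro s
      have h3 := hcon s
      rw [Finsupp.mapRange_apply] at h3
      have h4 : (2 : ℤ) ∣ m s / c := by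
        have := (ZMod.intCast_zmod_eq_zero_iff_dvd (m s / c) 2).1 h3
        exact_mod_cast this
      obtain ⟨t, ht⟩ := h4
      refine ⟨t, ?_⟩
      rw [← Int.mul_ediv_cancel' (hdiv s), ht]
      ring
    have h5 : 2 * c ∣ c := by
      conv_rhs => rw [hc]
      exact Finset.dvd_gcd fun s _ => h2 s
    obtain ⟨t, ht⟩ := h5
    have : c * (1 - 2 * t) = 0 := by linear_combination ht
    rcases mul_eq_zero.1 this with h | h
    · exact hc0 h
    · omega

theorem exists_multiple (n : ℤ →₀ ℚ) (hn : n ≠ 0) :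
    ∃ (D : ℚ) (m : ℤ →₀ ℤ), D ≠ 0 ∧ (∀ s, (m s : ℚ) = D * n s) ∧
      ∃ s, ((m s : ℤ) : ZMod 2) ≠ 0 := by
  classical
  obtain ⟨b, hb⟩ := IsLocalization.exist_integer_multiples_of_finset (nonZeroDivisors ℤ)
    (n.support.image n)
  have hb0 : ((b : ℤ) : ℚ) ≠ 0 := by
    have := nonZeroDivisors.coe_ne_zero b
    exact_mod_cast this
  have h1 : ∀ s, ∃ z : ℤ, (z : ℚ) = (b : ℤ) * n s := by
    intro s
    by_cases hs : s ∈ n.support
    · obtain ⟨z, hz⟩ := hb (n s) (Finset.mem_image_of_mem _ hs)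
      refine ⟨z, ?_⟩
      simpa [Submonoid.smul_def] using hz
    · exact ⟨0, by rw [Finsupp.notMem_support_iff.1 hs]; simp⟩
  choose z hz using h1
  have hz0 : ∀ s, z s ≠ 0 → s ∈ n.support := by
    intro s hs
    rw [Finsupp.mem_support_iff]
    intro h0
    apply hs
    have := hz s
    rw [h0, mul_zero] at this
    exact_mod_cast this
  let m : ℤ →₀ ℤ := Finsupp.onFinset n.support z hz0
  have hm : m ≠ 0 := by
    intro h0
    apply hn
    ext s
    have h2 : z s = 0 := by
      have := DFunLike.congr_fun h0 s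
      simpa [m] using this
    have h3 := hz s
    rw [h2, Int.cast_zero] at h3
    rcases mul_eq_zero.1 h3.symm with h | h
    · exact absurd h hb0
    · simpa using h
  obtain ⟨c, m', hc, hmm, hodd⟩ := exists_primitive m hm
  refine ⟨(b : ℤ) / (c : ℚ), m', ?_, ?_, hodd⟩
  · exact div_ne_zero hb0 (by exact_mod_cast hc)
  · intro s
    have h4 : (z s : ℚ) = c * m' s := by
      have := DFunLike.congr_fun hmm s
      simp only [m, Finsupp.onFinset_apply, Finsupp.smul_apply, smul_eq_mul] at this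
      exact_mod_cast this
    have h5 := hz s
    have hc' : (c : ℚ) ≠ 0 := by exact_mod_cast hc
    field_simp
    linear_combination h5 - h4

/-- The combinatorial heart: if the rows are congruent modulo `2` to the translates of a
polynomial with at least two nonzero coefficients, no nonzero combination which is nonzero modulo
`2` is supported on coordinate `0`. -/
theorem no_comb {S : Type*} (R : ℤ → (ℤ × S →₀ ℤ)) (f : ℤ → S → ZMod 2) (lo hi : ℤ)
    (hlh : lo < hi) (hlo : f lo ≠ 0) (hhi : f hi ≠ 0) (hf1 : ∀ h < lo, f h = 0)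
    (hf2 : ∀ h, hi < h → f h = 0)
    (hR : ∀ s i k, ((R s (i, k) : ℤ) : ZMod 2) = f (s - i) k) (m : ℤ →₀ ℤ)
    (hm : ∃ s, ((m s : ℤ) : ZMod 2) ≠ 0)
    (h : ∀ i k, i ≠ 0 → (m.sum fun s a => a • R s) (i, k) = 0) : False := by
  classical
  have key : ∀ i k, i ≠ 0 → m.support.sum (fun s => ((m s : ℤ) : ZMod 2) * f (s - i) k) = 0 := by
    intro i k hi0
    have h1 := h i k hi0
    rw [Finsupp.sum, Finsupp.finsetSum_apply] at h1
    have h2 := congrArg (Int.cast : ℤ → ZMod 2) h1
    rw [Int.cast_sum, Int.cast_zero] at h2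
    rw [← h2]
    refine Finset.sum_congr rfl fun s _ => ?_
    rw [Finsupp.smul_apply, smul_eq_mul, Int.cast_mul, hR]
  let T : Finset ℤ := m.support.filter fun s => ((m s : ℤ) : ZMod 2) ≠ 0
  have hT : T.Nonempty := by
    obtain ⟨s, hs⟩ := hm
    refine ⟨s, Finset.mem_filter.2 ⟨?_, hs⟩⟩
    rw [Finsupp.mem_support_iff]
    intro h0
    rw [h0] at hs
    simp at hs
  have key' : ∀ i k, i ≠ 0 → T.sum (fun s => ((m s : ℤ) : ZMod 2) * f (s - i) k) = 0 := by
    intro i k hi0
    rw [← key i k hi0]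
    refine Finset.sum_subset (Finset.filter_subset _ _) fun s hs hs' => ?_
    have : ((m s : ℤ) : ZMod 2) = 0 := by
      by_contra hne
      exact hs' (Finset.mem_filter.2 ⟨hs, hne⟩)
    rw [this, zero_mul]
  -- top
  have htop : T.max' hT - lo = 0 := by
    by_contra hne
    apply hlo
    funext k
    have h1 := key' (T.max' hT - lo) k hne
    rw [Finset.sum_eq_single (T.max' hT)] at h1
    · have h2 : ((m (T.max' hT) : ℤ) : ZMod 2) ≠ 0 :=
        (Finset.mem_filter.1 (T.max'_mem hT)).2
      rcases mul_eq_zero.1 h1 with h3 | h3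
      · exact absurd h3 h2
      · rw [show T.max' hT - (T.max' hT - lo) = lo by ring] at h3
        simpa using h3
    · intro s hs hne'
      have h2 : s < T.max' hT := lt_of_le_of_ne (T.le_max' s hs) hne'
      rw [hf1 _ (by omega)]
      simp
    · intro h2
      exact absurd (T.max'_mem hT) h2
  have hbot : T.min' hT - hi = 0 := by
    by_contra hne
    apply hhi
    funext k
    have h1 := key' (T.min' hT - hi) k hne
    rw [Finset.sum_eq_single (T.min' hT)] at h1
    · have h2 : ((m (T.min' hT) : ℤ) : ZMod 2) ≠ 0 :=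
        (Finset.mem_filter.1 (T.min'_mem hT)).2
      rcases mul_eq_zero.1 h1 with h3 | h3
      · exact absurd h3 h2
      · rw [show T.min' hT - (T.min' hT - hi) = hi by ring] at h3
        simpa using h3
    · intro s hs hne'
      have h2 : T.min' hT < s := lt_of_le_of_ne (T.min'_le s hs) (Ne.symm hne')
      rw [hf2 _ (by omega)]
      simp
    · intro h2
      exact absurd (T.min'_mem hT) h2
  have := T.min'_le _ (T.max'_mem hT)
  omega

theorem exists_functional {S : Type*} (R : ℤ → (ℤ × S →₀ ℤ)) (f : ℤ → S → ZMod 2) (lo hi : ℤ)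
    (hlh : lo < hi) (hlo : f lo ≠ 0) (hhi : f hi ≠ 0) (hf1 : ∀ h < lo, f h = 0)
    (hf2 : ∀ h, hi < h → f h = 0)
    (hR : ∀ s i k, ((R s (i, k) : ℤ) : ZMod 2) = f (s - i) k) (t : S → ℚ) :
    ∃ Y : (ℤ × S →₀ ℤ) →+ ℚ, (∀ s, Y (R s) = 0) ∧
      ∀ k, Y (Finsupp.single ((0 : ℤ), k) 1) = t k := by
  classical
  let ca : (ℤ × S →₀ ℤ) →+ (ℤ × S →₀ ℚ) := Finsupp.mapRange.addMonoidHom (Int.castAddHom ℚ)
  have hca : ∀ v x, ca v x = (v x : ℚ) := fun v x => rfl
  let U : Submodule ℚ (ℤ × S →₀ ℚ) := Submodule.span ℚ (Set.range fun s => ca (R s))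
  let j : (S →₀ ℚ) →ₗ[ℚ] (ℤ × S →₀ ℚ) := Finsupp.lmapDomain ℚ ℚ fun k => ((0 : ℤ), k)
  have hj0 : ∀ v i k, i ≠ 0 → j v (i, k) = 0 := by
    intro v i k hi0
    change Finsupp.mapDomain _ v (i, k) = 0
    apply Finsupp.mapDomain_of_notMem_range
    rintro ⟨k', hk'⟩
    exact hi0 (congrArg Prod.fst hk').symm
  have hjinj : Function.Injective j := by
    apply Finsupp.mapDomain_injective
    intro k k' hkk
    exact congrArg Prod.snd hkk
  have hU : ∀ v ∈ U, (∀ i k, i ≠ 0 → v (i, k) = 0) → v = 0 := by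
    intro v hv hv0
    obtain ⟨n, hn⟩ := (Finsupp.mem_span_range_iff_exists_finsupp).1 hv
    by_cases hn0 : n = 0
    · rw [hn0] at hn
      simpa using hn.symm
    · exfalso
      obtain ⟨D, m, hD, hm, hodd⟩ := exists_multiple n hn0
      refine no_comb R f lo hi hlh hlo hhi hf1 hf2 hR m hodd fun i k hi0 => ?_
      have h1 : (((m.sum fun s a => a • R s) (i, k) : ℤ) : ℚ) = D * v (i, k) := by
        rw [← hn, Finsupp.sum, Finsupp.finsetSum_apply, Finsupp.sum, Finsupp.finsetSum_apply,
          Int.cast_sum, Finset.mul_sum]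
        have hsup : m.support = n.support := by
          ext s
          rw [Finsupp.mem_support_iff, Finsupp.mem_support_iff]
          have h2 := hm s
          constructor
          · intro h3 h4
            rw [h4, mul_zero] at h2
            exact h3 (by exact_mod_cast h2)
          · intro h3 h4
            rw [h4, Int.cast_zero] at h2
            exact (mul_ne_zero hD h3) h2.symm
        rw [hsup]
        refine Finset.sum_congr rfl fun s _ => ?_
        rw [Finsupp.smul_apply, Finsupp.smul_apply, hca, smul_eq_mul, smul_eq_mul,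
          Int.cast_mul, hm]
        ring
      rw [hv0 i k hi0, mul_zero] at h1
      exact_mod_cast h1
  have hinj : Function.Injective (U.mkQ ∘ₗ j) := by
    rw [← LinearMap.ker_eq_bot, LinearMap.ker_eq_bot']
    intro v hv
    have h1 : j v ∈ U := by
      rw [LinearMap.comp_apply, Submodule.mkQ_apply, Submodule.Quotient.mk_eq_zero] at hv
      exact hv
    have h2 := hU (j v) h1 fun i k hi0 => hj0 v i k hi0
    exact hjinj (by rw [h2, map_zero])
  obtain ⟨g, hg⟩ := LinearMap.exists_leftInverse_of_injective (U.mkQ ∘ₗ j)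
    (LinearMap.ker_eq_bot.2 hinj)
  let tt : (S →₀ ℚ) →ₗ[ℚ] ℚ := Finsupp.linearCombination ℚ t
  let Z : (ℤ × S →₀ ℚ) →ₗ[ℚ] ℚ := tt ∘ₗ g ∘ₗ U.mkQ
  refine ⟨Z.toAddMonoidHom.comp ca, ?_, ?_⟩
  · intro s
    change tt (g (U.mkQ (ca (R s)))) = 0
    have : U.mkQ (ca (R s)) = 0 := by
      rw [Submodule.mkQ_apply, Submodule.Quotient.mk_eq_zero]
      exact Submodule.subset_span ⟨s, rfl⟩
    rw [this, map_zero, map_zero]
  · intro k
    change tt (g (U.mkQ (ca (Finsupp.single (0, k) 1)))) = t k
    have h1 : ca (Finsupp.single ((0 : ℤ), k) 1) = j (Finsupp.single k 1) := by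
      change Finsupp.mapRange (Int.castAddHom ℚ) (map_zero _) _ = Finsupp.mapDomain _ _
      rw [Finsupp.mapRange_single, Finsupp.mapDomain_single]
      simp
    rw [h1]
    have h2 : g (U.mkQ (j (Finsupp.single k 1))) = Finsupp.single k 1 := by
      have := LinearMap.congr_fun hg (Finsupp.single k 1)
      simpa using this
    rw [h2]
    simp [tt]

end Pool.Agent.Work.MP_d45015_al.HW
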