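import Pool.Agent.Work.MP_d45015_al.HW.Seq
import Pool.Agent.Work.MP_d45015_al.HW.Rows

/-! # Singular equations over groups with many sign-twisted cocycles -/

namespace Pool.Agent.Work.MP_d45015_al.HW

open Finsupp

/-- the sign of a class modulo `2` -/
def sg (c : ZMod 2) : ℤ := if c = 0 then 1 else -1

theorem sg_zero : sg 0 = 1 := rfl

theorem sg_add (a b : ZMod 2) : sg (a + b) = sg a * sg b := by
  revert a b
  decide

theorem sg_mul_self (a : ZMod 2) : sg a * sg a = 1 := by
  revert a
  decide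

theorem sg_mod (a : ZMod 2) : ((sg a : ℤ) : ZMod 2) = 1 := by
  revert a
  decide

theorem sg_eq_one {a : ZMod 2} (h : sg a = 1) : a = 0 := by
  revert h
  revert a
  decide

/-- the pairing of a vector and a function modulo `2` -/
noncomputable def L {S : Type} (α : S → ZMod 2) : (S →₀ ZMod 2) →+ ZMod 2 :=
  (Finsupp.linearCombination (ZMod 2) α).toAddMonoidHom

theorem L_single {S : Type} (α : S → ZMod 2) (k : S) (c : ZMod 2) :
    L α (single k c) = c * α k := by
  simp [L]

theorem L_pi {S : Type} [DecidableEq S] (k : S) (v : S →₀ ZMod 2) :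
    L (Pi.single k 1) v = v k := by
  classical
  induction v using Finsupp.induction_linear with
  | zero => simp
  | add f g hf hg => rw [map_add, hf, hg, Finsupp.add_apply]
  | single a b =>
    rw [L_single]
    by_cases h : a = k
    · subst h
      simp
    · rw [Pi.single_eq_of_ne h, Finsupp.single_eq_of_ne (Ne.symm h), mul_zero]

theorem L_add_left {S : Type} (α β : S → ZMod 2) (v : S →₀ ZMod 2) :
    L (α + β) v = L α v + L β v := by
  induction v using Finsupp.induction_linear with
  | zero => simp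
  | add f g hf hg =>
    rw [map_add, map_add, map_add, hf, hg]
    ring
  | single a b =>
    rw [L_single, L_single, L_single, Pi.add_apply, mul_add]

/-- nonzero functions modulo `2` -/
abbrev NZ (S : Type) := {α : S → ZMod 2 // α ≠ 0}

theorem zmod2_cases (c : ZMod 2) : c = 0 ∨ c = 1 := by
  revert c
  decide

theorem L_surj {S : Type} [Nontrivial S] {v : S →₀ ZMod 2} (hv : v ≠ 0) (t : ZMod 2) :
    ∃ x : NZ S, L x.1 v = t := by
  classical
  obtain ⟨k, hk⟩ := Finsupp.ne_iff.1 hv
  have hk1 : v k = 1 := by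
    rcases zmod2_cases (v k) with h | h
    · exact absurd h hk
    · exact h
  obtain ⟨k', hk'⟩ := exists_ne k
  have hne : ∀ j : S, (Pi.single j 1 : S → ZMod 2) ≠ 0 := by
    intro j h0
    have := congrFun h0 j
    rw [Pi.single_eq_same, Pi.zero_apply] at this
    exact one_ne_zero this
  rcases zmod2_cases t with ht | ht
  · subst ht
    rcases zmod2_cases (v k') with h | h
    · exact ⟨⟨Pi.single k' 1, hne k'⟩, by rw [L_pi, h]⟩
    · refine ⟨⟨Pi.single k 1 + Pi.single k' 1, ?_⟩, ?_⟩
      · intro h0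
        have := congrFun h0 k
        rw [Pi.add_apply, Pi.single_eq_same, Pi.single_eq_of_ne (Ne.symm hk'), Pi.zero_apply,
          add_zero] at this
        exact one_ne_zero this
      · rw [L_add_left, L_pi, L_pi, hk1, h]
        decide
  · exact ⟨⟨Pi.single k 1, hne k⟩, by rw [L_pi, hk1, ht]⟩

/-- A group with a class modulo `2` and integral cocycles twisted by every nontrivial sign
character, all of them reducing to the class, and jointly faithful. -/
structure Data (G S : Type) [Group G] where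
  q : G → (S →₀ ZMod 2)
  u : (S → ZMod 2) → G → (S →₀ ℤ)
  q_mul : ∀ g h, q (g * h) = q g + q h
  u_mul : ∀ α, α ≠ 0 → ∀ g h, u α (g * h) = u α g + sg (L α (q g)) • u α h
  u_mod : ∀ α, α ≠ 0 → ∀ g k, ((u α g k : ℤ) : ZMod 2) = q g k
  inj : ∀ g, (∀ α, α ≠ 0 → L α (q g) = 0 ∧ u α g = 0) → g = 1

namespace Data

variable {G S : Type} [Group G] (D : Data G S)

theorem q_one : D.q 1 = 0 := by
  have := D.q_mul 1 1
  rw [mul_one] at this
  simpa using this

theorem u_one {α : S → ZMod 2} (hα : α ≠ 0) : D.u α 1 = 0 := by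
  have := D.u_mul α hα 1 1
  rw [mul_one, q_one, map_zero, sg_zero, one_smul] at this
  simpa using this

/-- the vectors at coordinate `i` -/
noncomputable def emb (i : ℤ) : (S →₀ ℤ) →+ (ℤ × S →₀ ℤ) :=
  Finsupp.mapDomain.addMonoidHom fun k => (i, k)

theorem emb_same (i : ℤ) (v : S →₀ ℤ) (k : S) : emb i v (i, k) = v k :=
  Finsupp.mapDomain_apply (fun _ _ h => (Prod.mk.inj h).2) v k

theorem emb_ne {i j : ℤ} (h : j ≠ i) (v : S →₀ ℤ) (k : S) : emb i v (j, k) = 0 := by
  apply Finsupp.mapDomain_of_notMem_range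
  rintro ⟨k', hk'⟩
  exact h (congrArg Prod.fst hk').symm

theorem emb_single (i : ℤ) (k : S) (c : ℤ) : emb i (single k c) = single (i, k) c :=
  Finsupp.mapDomain_single

variable (α : ℤ → NZ S) (Y : (ℤ × S →₀ ℤ) →+ ℚ)

/-- the action of `G` by affine maps on the coordinates -/
noncomputable def endo : G →* Function.End (ℤ × ℚ) where
  toFun g := fun p => (p.1, (sg (L (α p.1).1 (D.q g)) : ℚ) * p.2 + Y (emb p.1 (D.u (α p.1).1 g)))
  map_one' := by
    funext p
    rw [D.q_one, map_zero, sg_zero, D.u_one (α p.1).2, map_zero, map_zero]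
    simp
    rfl
  map_mul' g h := by
    funext p
    change _ = (p.1, _)
    ext
    · rfl
    · dsimp only
      rw [D.q_mul, map_add, sg_add, D.u_mul _ (α p.1).2, map_add, map_add, map_zsmul, map_zsmul,
        zsmul_eq_mul]
      push_cast
      ring

/-- the same as a homomorphism to the permutations -/
noncomputable def act : G →* Equiv.Perm (ℤ × ℚ) :=
  (Equiv.Perm.equivUnitsEnd.symm.toMonoidHom).comp (MonoidHom.toHomUnits (D.endo α Y))

theorem act_apply (g : G) (p : ℤ × ℚ) : D.act α Y g p =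
    (p.1, (sg (L (α p.1).1 (D.q g)) : ℚ) * p.2 + Y (emb p.1 (D.u (α p.1).1 g))) := rfl

/-- the shift -/
def sh : Equiv.Perm (ℤ × ℚ) := (Equiv.addRight (1 : ℤ)).prodCongr (Equiv.refl ℚ)

theorem sh_zpow (n : ℤ) (p : ℤ × ℚ) : (sh ^ n) p = (p.1 + n, p.2) := by
  induction n generalizing p with
  | zero => simp
  | succ n ih =>
    rw [zpow_add_one, Equiv.Perm.mul_apply, ih]
    change (p.1 + 1 + n, p.2) = _
    ext
    · dsimp only
      ring
    · rfl
  | pred n ih =>
    rw [zpow_sub_one, Equiv.Perm.mul_apply, ih]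
    change (p.1 + -1 + -n, p.2) = _
    ext
    · dsimp only
      ring
    · rfl

/-- the translation row of the word at coordinate `s` -/
noncomputable def rowv (s : ℤ) : List (ℤ × G) → (ℤ × S →₀ ℤ)
  | [] => 0
  | p :: w => emb (s - p.1) (D.u (α (s - p.1)).1 p.2) +
      sg (L (α (s - p.1)).1 (D.q p.2)) • rowv s w

/-- the linear part of the word at coordinate `s` -/
noncomputable def linv (s : ℤ) (w : List (ℤ × G)) : ZMod 2 :=
  (w.map fun p => L (α (s - p.1)).1 (D.q p.2)).sum

theorem word_apply (w : List (ℤ × G)) (s : ℤ) (z : ℚ) :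
    (w.map fun p => sh ^ p.1 * D.act α Y p.2 * sh ^ (-p.1)).prod (s, z) =
      (s, (sg (D.linv α s w) : ℚ) * z + Y (D.rowv α s w)) := by
  induction w with
  | nil => simp [linv, rowv, sg_zero]
  | cons p w ih =>
    rw [List.map_cons, List.prod_cons, Equiv.Perm.mul_apply, ih, Equiv.Perm.mul_apply,
      Equiv.Perm.mul_apply, sh_zpow, act_apply, sh_zpow]
    have h1 : D.linv α s (p :: w) = L (α (s - p.1)).1 (D.q p.2) + D.linv α s w := by
      simp [linv]
    have h2 : D.rowv α s (p :: w) = emb (s - p.1) (D.u (α (s - p.1)).1 p.2) +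
      sg (L (α (s - p.1)).1 (D.q p.2)) • D.rowv α s w := rfl
    rw [h1, h2, sg_add, map_add, map_zsmul, zsmul_eq_mul]
    ext
    · dsimp only
      ring
    · dsimp only
      rw [← sub_eq_add_neg]
      push_cast
      ring

/-- the class of the product of the coefficients at level `h` -/
noncomputable def lev (w : List (ℤ × G)) (h : ℤ) : S →₀ ZMod 2 :=
  (w.map fun p => if p.1 = h then D.q p.2 else 0).sum

theorem lev_cons (p : ℤ × G) (w : List (ℤ × G)) (h : ℤ) :
    D.lev (p :: w) h = (if p.1 = h then D.q p.2 else 0) + D.lev w h := by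
  simp [lev]

theorem rowv_mod (s i : ℤ) (k : S) (w : List (ℤ × G)) :
    ((D.rowv α s w (i, k) : ℤ) : ZMod 2) = D.lev w (s - i) k := by
  induction w with
  | nil => simp [rowv, lev]
  | cons p w ih =>
    have h2 : D.rowv α s (p :: w) = emb (s - p.1) (D.u (α (s - p.1)).1 p.2) +
      sg (L (α (s - p.1)).1 (D.q p.2)) • D.rowv α s w := rfl
    rw [h2, lev_cons, Finsupp.add_apply, Finsupp.smul_apply, smul_eq_mul, Int.cast_add,
      Int.cast_mul, sg_mod, one_mul, ih, Finsupp.add_apply]
    congr 1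
    by_cases h : p.1 = s - i
    · rw [if_pos h]
      have h3 : s - p.1 = i := by omega
      rw [h3, emb_same, D.u_mod _ (α i).2]
    · rw [if_neg h, emb_ne (by omega)]
      simp

theorem linv_eq (s : ℤ) (w : List (ℤ × G)) (T : Finset ℤ) (hT : ∀ p ∈ w, p.1 ∈ T) :
    D.linv α s w = ∑ h ∈ T, L (α (s - h)).1 (D.lev w h) := by
  classical
  induction w with
  | nil => simp [linv, lev]
  | cons p w ih =>
    have h1 : D.linv α s (p :: w) = L (α (s - p.1)).1 (D.q p.2) + D.linv α s w := by
      simp [linv]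
    rw [h1, ih fun p' hp' => hT p' (List.mem_cons_of_mem _ hp')]
    have h2 : ∀ h, L (α (s - h)).1 (D.lev (p :: w) h) =
        (if p.1 = h then L (α (s - p.1)).1 (D.q p.2) else 0) + L (α (s - h)).1 (D.lev w h) := by
      intro h
      rw [lev_cons, map_add]
      congr 1
      by_cases h3 : p.1 = h
      · rw [if_pos h3, if_pos h3, h3]
      · rw [if_neg h3, if_neg h3, map_zero]
    simp_rw [h2]
    rw [Finset.sum_add_distrib, Finset.sum_ite_eq, if_pos (hT p List.mem_cons_self)]

theorem lev_mem {w : List (ℤ × G)} {h : ℤ} (hh : D.lev w h ≠ 0) : ∃ p ∈ w, p.1 = h := by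
  by_contra hcon
  push Not at hcon
  apply hh
  unfold lev
  apply List.sum_eq_zero
  intro x hx
  obtain ⟨p, hp, rfl⟩ := List.mem_map.1 hx
  rw [if_neg (hcon p hp)]

/-- one affine representation at coordinate `0` extends to the group of the equation -/
theorem exists_rep [Nontrivial S] (w : List (ℤ × G)) {h₁ h₂ : ℤ} (h12 : h₁ ≠ h₂)
    (hh1 : D.lev w h₁ ≠ 0) (hh2 : D.lev w h₂ ≠ 0) (α₀ : NZ S) (k₀ : S) :
    ∃ (θ : G →* Equiv.Perm (ℤ × ℚ)), (w.map fun p => sh ^ p.1 * θ p.2 * sh ^ (-p.1)).prod = 1 ∧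
      ∀ g z, θ g (0, z) = (0, (sg (L α₀.1 (D.q g)) : ℚ) * z + D.u α₀.1 g k₀) := by
  classical
  let T : Finset ℤ := (w.map Prod.fst).toFinset
  let N : Finset ℤ := T.filter fun h => D.lev w h ≠ 0
  have hTm : ∀ h, D.lev w h ≠ 0 → h ∈ N := by
    intro h hh
    refine Finset.mem_filter.2 ⟨?_, hh⟩
    obtain ⟨p, hp, rfl⟩ := D.lev_mem hh
    exact List.mem_toFinset.2 (List.mem_map_of_mem hp)
  have hN : N.Nonempty := ⟨h₁, hTm h₁ hh1⟩
  set lo := N.min' hN with hlo
  set hi := N.max' hN with hhi
  have hloN : D.lev w lo ≠ 0 := (Finset.mem_filter.1 (N.min'_mem hN)).2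
  have hhiN : D.lev w hi ≠ 0 := (Finset.mem_filter.1 (N.max'_mem hN)).2
  have hf1 : ∀ h < lo, D.lev w h = 0 := by
    intro h hlt
    by_contra hne
    exact absurd (N.min'_le h (hTm h hne)) (not_le.2 hlt)
  have hf2 : ∀ h, hi < h → D.lev w h = 0 := by
    intro h hlt
    by_contra hne
    exact absurd (N.le_max' h (hTm h hne)) (not_le.2 hlt)
  have hlh : lo < hi := by
    have a1 := N.min'_le h₁ (hTm h₁ hh1)
    have a2 := N.le_max' h₁ (hTm h₁ hh1)
    have a3 := N.min'_le h₂ (hTm h₂ hh2)
    have a4 := N.le_max' h₂ (hTm h₂ hh2)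
    omega
  obtain ⟨m, hm⟩ := Int.eq_ofNat_of_zero_le (show 0 ≤ hi - lo by omega)
  obtain ⟨α, hα0, hα⟩ := exists_seq (X := NZ S) (A := ZMod 2) m (by omega)
    (fun j x => L x.1 (D.lev w (hi - j)))
    (fun t => by simpa using L_surj hhiN t)
    (fun t => by
      have : hi - (m : ℤ) = lo := by omega
      simpa [this] using L_surj hloN t) α₀
  have hlin : ∀ s, D.linv α s w = 0 := by
    intro s
    rw [D.linv_eq α s w (T ∪ Finset.Icc lo hi) fun p hp =>
      Finset.mem_union_left _ (List.mem_toFinset.2 (List.mem_map_of_mem hp))]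
    rw [← Finset.sum_subset Finset.subset_union_right (fun h _ hh => by
      rw [Finset.mem_Icc, not_and_or, not_le, not_le] at hh
      rcases hh with hh | hh
      · rw [hf1 h hh, map_zero]
      · rw [hf2 h hh, map_zero])]
    rw [← hα (s - hi)]
    symm
    refine Finset.sum_bij (fun j _ => hi - (j : ℤ)) ?_ ?_ ?_ ?_
    · intro j hj
      rw [Finset.mem_range] at hj
      rw [Finset.mem_Icc]
      omega
    · intro j _ j' _ hjj
      omega
    · intro h hh
      rw [Finset.mem_Icc] at hh
      refine ⟨(hi - h).toNat, ?_, ?_⟩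
      · rw [Finset.mem_range]
        omega
      · omega
    · intro j _
      rw [show s - hi + (j : ℤ) = s - (hi - j) by ring]
  obtain ⟨Y, hY, hY0⟩ := exists_functional (fun s => D.rowv α s w)
    (fun h => ⇑(D.lev w h)) lo hi hlh
    (fun h => hloN (DFunLike.coe_injective h)) (fun h => hhiN (DFunLike.coe_injective h))
    (fun h hh => by rw [hf1 h hh]; rfl) (fun h hh => by rw [hf2 h hh]; rfl)
    (fun s i k => D.rowv_mod α s i k w) (Pi.single k₀ 1)
  have hYe : ∀ v : S →₀ ℤ, Y (emb 0 v) = v k₀ := by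
    intro v
    induction v using Finsupp.induction_linear with
    | zero => simp
    | add f g hf hg => rw [map_add, map_add, hf, hg, Finsupp.add_apply, Int.cast_add]
    | single a b =>
      have : single ((0 : ℤ), a) b = b • single ((0 : ℤ), a) (1 : ℤ) := by
        rw [Finsupp.smul_single]
        simp
      rw [emb_single, this, map_zsmul, hY0, zsmul_eq_mul]
      by_cases hak : a = k₀
      · subst hak
        simp
      · rw [Pi.single_eq_of_ne hak, Finsupp.single_eq_of_ne (Ne.symm hak)]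
        simp
  refine ⟨D.act α Y, ?_, ?_⟩
  · ext p
    · rw [show p = (p.1, p.2) from rfl, word_apply]
      rfl
    · rw [show p = (p.1, p.2) from rfl, word_apply, hlin, hY]
      simp [sg_zero]
  · intro g z
    rw [act_apply]
    dsimp only
    rw [hα0, hYe]

/-- Core theorem. -/
theorem core [Nontrivial S] (w : List (ℤ × G)) {h₁ h₂ : ℤ} (h12 : h₁ ≠ h₂)
    (hh1 : D.lev w h₁ ≠ 0) (hh2 : D.lev w h₂ ≠ 0) :
    ∃ (H : Type) (_ : Group H) (ι : G →* H) (x : H), Function.Injective ι ∧
      (w.map fun p => x ^ p.1 * ι p.2 * x ^ (-p.1)).prod = 1 := by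
  classical
  have hex := fun c : NZ S × S => D.exists_rep w h12 hh1 hh2 c.1 c.2
  choose θ hθ hθ0 using hex
  refine ⟨NZ S × S → Equiv.Perm (ℤ × ℚ), inferInstance, MonoidHom.pi θ, fun _ => sh, ?_, ?_⟩
  · rw [injective_iff_map_eq_one]
    intro g hg
    apply D.inj g
    intro α hα
    obtain ⟨k₁⟩ : Nonempty S := inferInstance
    have h1 : ∀ k z, ((0 : ℤ), (sg (L α (D.q g)) : ℚ) * z + D.u α g k) = ((0 : ℤ), z) := by
      intro k z
      rw [← hθ0 (⟨α, hα⟩, k) g z]
      have := congrFun hg (⟨α, hα⟩, k)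
      change θ (⟨α, hα⟩, k) g = 1 at this
      rw [this]
      rfl
    have h2 : ∀ k, D.u α g k = 0 := by
      intro k
      have := congrArg Prod.snd (h1 k 0)
      dsimp only at this
      rw [mul_zero, zero_add] at this
      exact_mod_cast this
    refine ⟨?_, Finsupp.ext h2⟩
    have := congrArg Prod.snd (h1 k₁ 1)
    dsimp only at this
    rw [h2 k₁, mul_one, Int.cast_zero, add_zero] at this
    exact sg_eq_one (by exact_mod_cast this)
  · funext c
    rw [Pi.one_apply, Pi.list_prod_apply, List.map_map]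
    exact hθ c

end Data

end Pool.Agent.Work.MP_d45015_al.HW
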