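import Mathlib

/-! # The groups `G_S` and the Hantzsche-Wendt group -/

namespace Pool.Agent.Work.MP_d45015_al.HW

/-- For a function `χ : S → {±1}`, the homomorphism from the free group on `S` to the permutations
of `ℤ^(S)` sending `s` to the affine map `v ↦ χ(s) v + e_s`. -/
noncomputable def theta (S : Type) (χ : S → ℤˣ) : FreeGroup S →* Equiv.Perm (S →₀ ℤ) :=
  FreeGroup.lift fun s =>
    { toFun := fun v => (χ s : ℤ) • v + Finsupp.single s 1
      invFun := fun v => (χ s : ℤ) • (v - Finsupp.single s 1)
      left_inv := fun v => by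
        dsimp only
        rw [add_sub_cancel_right, smul_smul, ← Units.val_mul, Int.units_mul_self, Units.val_one,
          one_smul]
      right_inv := fun v => by
        dsimp only
        rw [smul_smul, ← Units.val_mul, Int.units_mul_self, Units.val_one, one_smul,
          sub_add_cancel] }

/-- The common kernel of the homomorphisms `theta S χ`, `χ : S → {±1}` not constant `1`. -/
noncomputable def KS (S : Type) : Subgroup (FreeGroup S) :=
  ⨅ χ : {χ : S → ℤˣ // χ ≠ 1}, (theta S χ.1).ker

instance (S : Type) : (KS S).Normal :=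
  Subgroup.normal_iInf_normal fun _ => inferInstance

/-- The group `G_S`. -/
abbrev GS (S : Type) : Type := FreeGroup S ⧸ KS S

/-- The defining relators of the Hantzsche-Wendt group. -/
def hwRels : Set (FreeGroup (Fin 2)) :=
  {(FreeGroup.of 0)⁻¹ * FreeGroup.of 1 ^ 2 * FreeGroup.of 0 * FreeGroup.of 1 ^ 2,
    (FreeGroup.of 1)⁻¹ * FreeGroup.of 0 ^ 2 * FreeGroup.of 1 * FreeGroup.of 0 ^ 2}

/-- The Hantzsche-Wendt group `⟨a, b | a⁻¹ b² a b² = b⁻¹ a² b a² = 1⟩`. -/
abbrev HWGroup : Type := PresentedGroup hwRels

end Pool.Agent.Work.MP_d45015_al.HW
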