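import Pool.Agent.Work.MP_d45015_al.HW.Iso

/-! # Assembling: arbitrary overgroups, two-level words with different coefficient groups -/

namespace Pool.Agent.Work.MP_d45015_al.HW

open Finsupp Function

/-- a family of two groups -/
def Fam (G H : Type) : Bool → Type
  | false => G
  | true => H

instance famGroup (G H : Type) [Group G] [Group H] : ∀ b, Group (Fam G H b)
  | false => inferInstanceAs (Group G)
  | true => inferInstanceAs (Group H)

/-- a family of two homomorphisms -/
def famHom {K G H : Type} [Group K] [Group G] [Group H] (j : K →* G) (ι : K →* H) :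
    ∀ b, K →* Fam G H b
  | false => j
  | true => ι

/-- Amalgamation. -/
theorem amalgam {K G H : Type} [Group K] [Group G] [Group H] (j : K →* G) (hj : Injective j)
    (ι : K →* H) (hι : Injective ι) :
    ∃ (M : Type) (_ : Group M) (f : G →* M) (g : H →* M), Injective f ∧ Injective g ∧
      f.comp j = g.comp ι := by
  have hφ : ∀ b, Injective (famHom j ι b) := by
    intro b
    cases b
    · exact hj
    · exact hι
  refine ⟨Monoid.PushoutI (famHom j ι), inferInstance,
    Monoid.PushoutI.of (φ := famHom j ι) false,
    Monoid.PushoutI.of (φ := famHom j ι) true, Monoid.PushoutI.of_injective hφ false,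
    Monoid.PushoutI.of_injective hφ true, ?_⟩
  have h1 := Monoid.PushoutI.of_comp_eq_base (φ := famHom j ι) false
  have h2 := Monoid.PushoutI.of_comp_eq_base (φ := famHom j ι) true
  exact h1.trans h2.symm

/-- the class of a product at one level from a homomorphism to `ℤ/2` -/
theorem lev_ne {S : Type} [Nontrivial S] (w : List (ℤ × GS S)) (h : ℤ)
    (hh : ∃ ε : GS S →* Multiplicative (ZMod 2),
      ε (((w.filter fun p => p.1 = h).map Prod.snd).prod) ≠ 1) :
    (dataGS S).lev w h ≠ 0 := by
  classical
  obtain ⟨ε, hε⟩ := hh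
  intro h0
  apply hε
  -- the homomorphism is determined by the class
  let α : S → ZMod 2 := fun s => (ε (QuotientGroup.mk (FreeGroup.of s))).toAdd
  have h1 : ∀ g : GS S, (ε g).toAdd = L α ((dataGS S).q g) := by
    intro g
    induction g using QuotientGroup.induction_on with
    | H g =>
    have h2 : ε.comp (QuotientGroup.mk' (KS S)) =
        (AddMonoidHom.toMultiplicative (L α)).comp (q₀ S) := by
      apply FreeGroup.ext_hom
      intro s
      apply Multiplicative.toAdd.injective
      change α s = L α (q₀ S (FreeGroup.of s)).toAdd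
      rw [q₀_of, L_single, one_mul]
    exact congrArg Multiplicative.toAdd (DFunLike.congr_fun h2 g)
  have h3 : ∀ w : List (ℤ × GS S), (dataGS S).q (((w.filter fun p => p.1 = h).map Prod.snd).prod) =
      (dataGS S).lev w h := by
    intro w
    induction w with
    | nil => simp [Data.lev, Data.q_one]
    | cons p w ih =>
      rw [Data.lev_cons]
      by_cases hp : p.1 = h
      · rw [List.filter_cons_of_pos (by simpa using hp), List.map_cons, List.prod_cons,
          Data.q_mul, ih, if_pos hp]
      · rw [List.filter_cons_of_neg (by simpa using hp), ih, if_neg hp, zero_add]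
  apply Multiplicative.toAdd.injective
  rw [h1, h3, h0, map_zero]
  rfl

/-- The main theorem over an arbitrary group containing `G_S`. -/
theorem mainGS {S : Type} [Nontrivial S] {G : Type} [Group G] (j : GS S →* G) (hj : Injective j)
    (w : List (ℤ × GS S)) {h₁ h₂ : ℤ} (h12 : h₁ ≠ h₂)
    (hh1 : ∃ ε : GS S →* Multiplicative (ZMod 2),
      ε (((w.filter fun p => p.1 = h₁).map Prod.snd).prod) ≠ 1)
    (hh2 : ∃ ε : GS S →* Multiplicative (ZMod 2),
      ε (((w.filter fun p => p.1 = h₂).map Prod.snd).prod) ≠ 1) :
    ∃ (H : Type) (_ : Group H) (ι : G →* H) (x : H), Injective ι ∧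
      (w.map fun p => x ^ p.1 * ι (j p.2) * x ^ (-p.1)).prod = 1 := by
  obtain ⟨H, _, ι, x, hι, hw⟩ := (dataGS S).core w h12 (lev_ne w h₁ hh1) (lev_ne w h₂ hh2)
  obtain ⟨M, _, f, g, hf, hg, hfg⟩ := amalgam j hj ι hι
  refine ⟨M, inferInstance, f, g x, hf, ?_⟩
  have h1 : (w.map fun p => g x ^ p.1 * f (j p.2) * g x ^ (-p.1)).prod =
      g ((w.map fun p => x ^ p.1 * ι p.2 * x ^ (-p.1)).prod) := by
    rw [map_list_prod, List.map_map]
    congr 2
    funext p
    have h2 : f (j p.2) = g (ι p.2) := DFunLike.congr_fun hfg p.2
    simp only [comp_apply, map_mul, map_zpow, h2]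
  rw [h1, hw, map_one]

end Pool.Agent.Work.MP_d45015_al.HW
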