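import Pool.Agent.Work.MP_d45015_al.HW.Defs
import Pool.Agent.Work.MP_d45015_al.HW.Core

/-! # Properties of the groups `G_S` -/

namespace Pool.Agent.Work.MP_d45015_al.HW

open Finsupp

variable {S : Type}

theorem theta_of (χ : S → ℤˣ) (s : S) (v : S →₀ ℤ) :
    theta S χ (FreeGroup.of s) v = (χ s : ℤ) • v + single s 1 := by
  unfold theta
  rw [FreeGroup.lift_apply_of]
  rfl

/-- the class modulo `2` of an element of the free group -/
noncomputable def q₀ (S : Type) : FreeGroup S →* Multiplicative (S →₀ ZMod 2) :=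
  FreeGroup.lift fun s => Multiplicative.ofAdd (single s 1)

theorem q₀_of (s : S) : (q₀ S (FreeGroup.of s)).toAdd = single s 1 := by
  unfold q₀
  rw [FreeGroup.lift_apply_of]
  rfl

theorem unit_mod (c : ℤˣ) : (((c : ℤ)) : ZMod 2) = 1 := by
  rcases Int.units_eq_one_or c with h | h <;> rw [h] <;> decide

theorem theta_apply (χ : S → ℤˣ) (g : FreeGroup S) (v : S →₀ ℤ) :
    theta S χ g v = ((FreeGroup.lift χ g : ℤˣ) : ℤ) • v + theta S χ g 0 := by
  induction g using FreeGroup.induction_on generalizing v with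
  | C1 => simp
  | of s =>
    rw [theta_of, theta_of, smul_zero, zero_add]
    congr 2
    rw [FreeGroup.lift_apply_of]
  | inv_of s _ =>
    have h : ∀ v, theta S χ (FreeGroup.of s)⁻¹ v = (χ s : ℤ) • (v - single s 1) := by
      intro v
      rw [map_inv, Equiv.Perm.inv_eq_iff_eq, theta_of, smul_smul, ← Units.val_mul,
        Int.units_mul_self, Units.val_one, one_smul, sub_add_cancel]
    rw [h, h, map_inv,
      FreeGroup.lift_apply_of, Int.units_inv_eq_self, smul_sub, zero_sub, smul_neg]
    abel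
  | mul g h hg hh =>
    rw [map_mul, map_mul, Equiv.Perm.mul_apply, Equiv.Perm.mul_apply, hh v, hg, hg (theta S χ h 0),
      Units.val_mul, smul_add, smul_smul]
    abel

theorem theta_mod (χ : S → ℤˣ) (g : FreeGroup S) (k : S) :
    ((theta S χ g 0 k : ℤ) : ZMod 2) = (q₀ S g).toAdd k := by
  classical
  induction g using FreeGroup.induction_on with
  | C1 => simp
  | of s =>
    rw [theta_of, smul_zero, zero_add]
    rw [q₀_of]
    by_cases h : s = k
    · subst h
      simp
    · rw [Finsupp.single_eq_of_ne (Ne.symm h), Finsupp.single_eq_of_ne (Ne.symm h)]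
      simp
  | inv_of s _ =>
    have h : theta S χ (FreeGroup.of s)⁻¹ 0 = (χ s : ℤ) • (0 - single s 1) := by
      rw [map_inv, Equiv.Perm.inv_eq_iff_eq, theta_of, smul_smul, ← Units.val_mul,
        Int.units_mul_self, Units.val_one, one_smul, sub_add_cancel]
    rw [h, map_inv, toAdd_inv, q₀_of,
      Finsupp.smul_apply, smul_eq_mul, Int.cast_mul, unit_mod, one_mul, zero_sub,
      Finsupp.neg_apply, Finsupp.neg_apply]
    by_cases h : s = k
    · subst h
      simp
    · rw [Finsupp.single_eq_of_ne (Ne.symm h), Finsupp.single_eq_of_ne (Ne.symm h)]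
      simp
  | mul g h hg hh =>
    rw [map_mul, map_mul, Equiv.Perm.mul_apply, theta_apply, Finsupp.add_apply,
      Finsupp.smul_apply, smul_eq_mul, Int.cast_add, Int.cast_mul, unit_mod, one_mul, hg, hh,
      toAdd_mul, Finsupp.add_apply, add_comm]

/-- the sign as a unit -/
def sgu (c : ZMod 2) : ℤˣ := if c = 0 then 1 else -1

theorem sgu_val (c : ZMod 2) : ((sgu c : ℤˣ) : ℤ) = sg c := by
  revert c
  decide

theorem sgu_add (a b : ZMod 2) : sgu (a + b) = sgu a * sgu b := by
  revert a b
  decide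

/-- the sign as a homomorphism -/
def sgHom : Multiplicative (ZMod 2) →* ℤˣ where
  toFun c := sgu c.toAdd
  map_one' := rfl
  map_mul' a b := sgu_add a.toAdd b.toAdd

theorem lift_sgu (α : S → ZMod 2) (g : FreeGroup S) :
    FreeGroup.lift (fun s => sgu (α s)) g = sgu (L α (q₀ S g).toAdd) := by
  have h : FreeGroup.lift (fun s => sgu (α s)) =
      (sgHom.comp ((AddMonoidHom.toMultiplicative (L α)).comp (q₀ S))) := by
    apply FreeGroup.ext_hom
    intro s
    rw [FreeGroup.lift_apply_of]
    change sgu (α s) = sgu (L α (q₀ S (FreeGroup.of s)).toAdd)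
    rw [q₀_of, L_single, one_mul]
  rw [h]
  rfl

theorem sgu_ne_one {α : S → ZMod 2} (hα : α ≠ 0) : (fun s => sgu (α s)) ≠ 1 := by
  intro h
  apply hα
  funext s
  have h1 := congrFun h s
  revert h1
  change sgu (α s) = 1 → α s = 0
  generalize α s = c
  revert c
  decide

theorem exists_sgu (χ : S → ℤˣ) : ∃ α : S → ZMod 2, (fun s => sgu (α s)) = χ := by
  have h : ∀ c : ℤˣ, ∃ d : ZMod 2, sgu d = c := by decide
  choose d hd using h
  exact ⟨fun s => d (χ s), funext fun s => hd _⟩

theorem mem_KS {g : FreeGroup S} : g ∈ KS S ↔ ∀ χ : S → ℤˣ, χ ≠ 1 → theta S χ g = 1 := by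
  unfold KS
  rw [Subgroup.mem_iInf]
  constructor
  · intro h χ hχ
    exact h ⟨χ, hχ⟩
  · intro h χ
    exact h χ.1 χ.2

theorem q₀_of_mem_KS [Nontrivial S] {g : FreeGroup S} (hg : g ∈ KS S) : q₀ S g = 1 := by
  classical
  obtain ⟨k⟩ : Nonempty S := inferInstance
  have h1 : (fun _ : S => (-1 : ℤˣ)) ≠ 1 := by
    intro h
    have h3 : (-1 : ℤˣ) = 1 := congrFun h k
    exact absurd h3 (by decide)
  have h2 := mem_KS.1 hg _ h1
  apply Multiplicative.toAdd.injective
  ext j
  rw [← theta_mod (fun _ => -1) g j, h2]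
  simp

/-- the affine representation of `G_S` -/
noncomputable def thetaBar (χ : S → ℤˣ) (hχ : χ ≠ 1) : GS S →* Equiv.Perm (S →₀ ℤ) :=
  QuotientGroup.lift (KS S) (theta S χ) fun _ hg => mem_KS.1 hg χ hχ

/-- the class modulo `2` on `G_S` -/
noncomputable def qBar (S : Type) [Nontrivial S] : GS S →* Multiplicative (S →₀ ZMod 2) :=
  QuotientGroup.lift (KS S) (q₀ S) fun _ hg => q₀_of_mem_KS hg

open Classical in
/-- the cocycles of `G_S` -/
noncomputable def uBar (α : S → ZMod 2) (g : GS S) : S →₀ ℤ :=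
  if h : α ≠ 0 then thetaBar (fun s => sgu (α s)) (sgu_ne_one h) g 0 else 0

theorem uBar_mk {α : S → ZMod 2} (hα : α ≠ 0) (g : FreeGroup S) :
    uBar α (g : GS S) = theta S (fun s => sgu (α s)) g 0 := by
  unfold uBar
  rw [dif_pos hα]
  rfl

/-- the data of `G_S` -/
noncomputable def dataGS (S : Type) [Nontrivial S] : Data (GS S) S where
  q g := (qBar S g).toAdd
  u := uBar
  q_mul g h := by rw [map_mul, toAdd_mul]
  u_mul α hα g h := by
    induction g using QuotientGroup.induction_on with
    | H g =>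
    induction h using QuotientGroup.induction_on with
    | H h =>
    rw [← QuotientGroup.mk_mul, uBar_mk hα, uBar_mk hα, uBar_mk hα, map_mul,
      Equiv.Perm.mul_apply, theta_apply, lift_sgu, sgu_val, add_comm]
    rfl
  u_mod α hα g k := by
    induction g using QuotientGroup.induction_on with
    | H g =>
    rw [uBar_mk hα, theta_mod]
    rfl
  inj g hg := by
    induction g using QuotientGroup.induction_on with
    | H g =>
    rw [QuotientGroup.eq_one_iff, mem_KS]
    intro χ hχ
    obtain ⟨α, rfl⟩ := exists_sgu χ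
    have hα : α ≠ 0 := by
      rintro rfl
      apply hχ
      funext s
      rfl
    obtain ⟨h1, h2⟩ := hg α hα
    rw [uBar_mk hα] at h2
    ext1 v
    rw [theta_apply, lift_sgu, h2, add_zero]
    have h3 : L α (q₀ S g).toAdd = 0 := h1
    rw [h3]
    simp [sgu]

namespace Data

variable {G S : Type} [Group G] (D : Data G S)

theorem q_pow (g : G) (n : ℕ) : D.q (g ^ n) = n • D.q g := by
  induction n with
  | zero => rw [pow_zero, D.q_one, zero_smul]
  | succ n ih => rw [pow_succ, D.q_mul, ih, succ_nsmul]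

theorem u_pow {α : S → ZMod 2} (hα : α ≠ 0) {g : G} (hg : L α (D.q g) = 0) (n : ℕ) :
    D.u α (g ^ n) = n • D.u α g := by
  induction n with
  | zero => rw [pow_zero, D.u_one hα, zero_smul]
  | succ n ih => rw [pow_succ', D.u_mul α hα, hg, sg_zero, one_smul, ih, succ_nsmul']

include D in
theorem torsionFree [Nontrivial S] {g : G} (hg : g ≠ 1) {n : ℕ} (hn : n ≠ 0) : g ^ n ≠ 1 := by
  intro h
  have key : ∀ α, α ≠ 0 → L α (D.q g) = 0 → D.u α g = 0 := by
    intro α hα h0
    have h1 := D.u_pow hα h0 n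
    rw [h, D.u_one hα] at h1
    have h2 := h1.symm
    rw [smul_eq_zero] at h2
    rcases h2 with h2 | h2
    · exact absurd h2 hn
    · exact h2
  have hq : D.q g = 0 := by
    by_contra hne
    obtain ⟨x, hx⟩ := L_surj hne 0
    have h1 := key x.1 x.2 hx
    apply hne
    ext k
    rw [← D.u_mod x.1 x.2 g k, h1]
    simp
  apply hg
  apply D.inj
  intro α hα
  have h0 : L α (D.q g) = 0 := by rw [hq, map_zero]
  exact ⟨h0, key α hα h0⟩

end Data

end Pool.Agent.Work.MP_d45015_al.HW
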