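import Pool.Agent.Work.MP_d45015_al.HW.Group

/-! # For finite `S` the group `G_S` has no nontrivial homomorphism to `ℤ` -/

namespace Pool.Agent.Work.MP_d45015_al.HW

open Finsupp

variable {S : Type}

/-- iterated products of conjugates of the square of a generator -/
def tw (t : S) : List S → FreeGroup S
  | [] => FreeGroup.of t ^ 2
  | s :: l => tw t l * (FreeGroup.of s * tw t l * (FreeGroup.of s)⁻¹)

theorem theta_inv_of (χ : S → ℤˣ) (s : S) (v : S →₀ ℤ) :
    theta S χ (FreeGroup.of s)⁻¹ v = (χ s : ℤ) • (v - single s 1) := by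
  rw [map_inv, Equiv.Perm.inv_eq_iff_eq, theta_of, smul_smul, ← Units.val_mul,
    Int.units_mul_self, Units.val_one, one_smul, sub_add_cancel]

theorem theta_tw (χ : S → ℤˣ) (t : S) (l : List S) (v : S →₀ ℤ) :
    theta S χ (tw t l) v = v + ((1 + (χ t : ℤ)) * (l.map fun s => 1 + (χ s : ℤ)).prod) •
      single t 1 := by
  induction l generalizing v with
  | nil =>
    change theta S χ (FreeGroup.of t ^ 2) v = _
    rw [map_pow, pow_two, Equiv.Perm.mul_apply, theta_of, theta_of, smul_add, smul_smul,
      ← Units.val_mul, Int.units_mul_self, Units.val_one, one_smul, List.map_nil, List.prod_nil,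
      mul_one, add_smul, one_smul]
    abel
  | cons s l ih =>
    change theta S χ (tw t l * (FreeGroup.of s * tw t l * (FreeGroup.of s)⁻¹)) v = _
    rw [map_mul, map_mul, map_mul, Equiv.Perm.mul_apply, Equiv.Perm.mul_apply,
      Equiv.Perm.mul_apply, theta_inv_of, ih, ih, theta_of, smul_add, smul_smul, smul_smul,
      ← Units.val_mul, Int.units_mul_self, Units.val_one, one_smul, List.map_cons, List.prod_cons]
    have h : (1 + (χ t : ℤ)) * ((1 + (χ s : ℤ)) * (l.map fun s => 1 + (χ s : ℤ)).prod) =
        (χ s : ℤ) * ((1 + (χ t : ℤ)) * (l.map fun s => 1 + (χ s : ℤ)).prod) +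
          (1 + (χ t : ℤ)) * (l.map fun s => 1 + (χ s : ℤ)).prod := by ring
    rw [h, add_smul]
    abel

theorem tw_mem [Fintype S] (t : S) : tw t (Finset.univ : Finset S).toList ∈ KS S := by
  rw [mem_KS]
  intro χ hχ
  ext1 v
  rw [theta_tw]
  have h1 : ∃ s, χ s ≠ 1 := by
    by_contra hcon
    push Not at hcon
    exact hχ (funext hcon)
  obtain ⟨s, hs⟩ := h1
  have h2 : (1 + (χ s : ℤ)) = 0 := by
    rcases Int.units_eq_one_or (χ s) with h | h
    · exact absurd h hs
    · rw [h]
      rfl
  have h3 : ((Finset.univ : Finset S).toList.map fun s => 1 + (χ s : ℤ)).prod = 0 := by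
    rw [List.prod_eq_zero_iff, List.mem_map]
    exact ⟨s, Finset.mem_toList.2 (Finset.mem_univ s), h2⟩
  rw [h3, mul_zero, zero_smul, add_zero]
  rfl

theorem hom_tw (φ : FreeGroup S →* Multiplicative ℤ) (t : S) (l : List S) :
    (φ (tw t l)).toAdd = 2 ^ (l.length + 1) * (φ (FreeGroup.of t)).toAdd := by
  induction l with
  | nil =>
    change (φ (FreeGroup.of t ^ 2)).toAdd = _
    rw [map_pow, toAdd_pow]
    simp
  | cons s l ih =>
    change (φ (tw t l * (FreeGroup.of s * tw t l * (FreeGroup.of s)⁻¹))).toAdd = _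
    rw [φ.map_mul, φ.map_mul, φ.map_mul, φ.map_inv, toAdd_mul, toAdd_mul, toAdd_mul, toAdd_inv, ih,
      List.length_cons, pow_succ 2 (l.length + 1)]
    ring

theorem hom_trivial [Finite S] (φ : GS S →* Multiplicative ℤ) : φ = 1 := by
  have := Fintype.ofFinite S
  let ψ : FreeGroup S →* Multiplicative ℤ := φ.comp (QuotientGroup.mk' (KS S))
  have hψ : ψ = 1 := by
    apply FreeGroup.ext_hom
    intro t
    have h1 := hom_tw ψ t (Finset.univ : Finset S).toList
    have h2 : ψ (tw t (Finset.univ : Finset S).toList) = 1 := by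
      change φ ((tw t (Finset.univ : Finset S).toList : FreeGroup S) : GS S) = 1
      rw [(QuotientGroup.eq_one_iff _).2 (tw_mem t), map_one]
    rw [h2, toAdd_one] at h1
    have h3 : (ψ (FreeGroup.of t)).toAdd = 0 := by
      rcases mul_eq_zero.1 h1.symm with h | h
      · exact absurd h (by positivity)
      · exact h
    apply Multiplicative.toAdd.injective
    rw [h3]
    rfl
  refine DFunLike.ext _ _ fun g => ?_
  induction g using QuotientGroup.induction_on with
  | H g => exact DFunLike.congr_fun hψ g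

end Pool.Agent.Work.MP_d45015_al.HW
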