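import Pool.Agent.Work.MP_d45015_al.HW.Hom

/-! # The group `G_2` is the Hantzsche-Wendt group -/

namespace Pool.Agent.Work.MP_d45015_al.HW

open Finsupp

section normalForm

variable {H : Type} [Group H] {a b : H}

theorem hw_aB (h1 : a⁻¹ * b ^ 2 * a * b ^ 2 = 1) : SemiconjBy a (b ^ 2) (b ^ 2)⁻¹ := by
  have h2 : b ^ 2 * a * b ^ 2 = a := by
    calc b ^ 2 * a * b ^ 2 = a * (a⁻¹ * b ^ 2 * a * b ^ 2) := by group
      _ = a := by rw [h1, mul_one]
  have h3 : a * b ^ 2 = (b ^ 2)⁻¹ * a := by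
    rw [eq_inv_mul_iff_mul_eq, ← mul_assoc]
    exact h2
  exact h3

/-- the three translations -/
theorem hw_data (h1 : a⁻¹ * b ^ 2 * a * b ^ 2 = 1) (h2 : b⁻¹ * a ^ 2 * b * a ^ 2 = 1) :
    SemiconjBy a (a ^ 2) (a ^ 2) ∧ SemiconjBy a (b ^ 2) (b ^ 2)⁻¹ ∧
    SemiconjBy a ((a * b) ^ 2) ((a * b) ^ 2)⁻¹ ∧ SemiconjBy b (a ^ 2) (a ^ 2)⁻¹ ∧
    SemiconjBy b (b ^ 2) (b ^ 2) ∧ SemiconjBy b ((a * b) ^ 2) ((a * b) ^ 2)⁻¹ := by
  have haA : SemiconjBy a (a ^ 2) (a ^ 2) := (Commute.refl a).pow_right 2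
  have hbB : SemiconjBy b (b ^ 2) (b ^ 2) := (Commute.refl b).pow_right 2
  have haB := hw_aB h1
  have hbA := hw_aB h2
  have hbA' : b * a ^ 2 * b⁻¹ = (a ^ 2)⁻¹ := by
    rw [mul_inv_eq_iff_eq_mul]
    exact hbA
  have haB' : a * b ^ 2 * a⁻¹ = (b ^ 2)⁻¹ := by
    rw [mul_inv_eq_iff_eq_mul]
    exact haB
  refine ⟨haA, haB, ?_, hbA, hbB, ?_⟩
  · have h3 : a * (a * b) ^ 2 * a⁻¹ * (a * b) ^ 2 = 1 := by
      have e1 : a * (a * b) ^ 2 * a⁻¹ * (a * b) ^ 2 =
          a ^ 2 * b * (a * b ^ 2 * a⁻¹) * a ^ 2 * b := by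
        rw [pow_two, pow_two, pow_two]
        group
      have e2 : a ^ 2 * b * (b ^ 2)⁻¹ * a ^ 2 * b =
          a ^ 2 * (b ^ 2)⁻¹ * (b * a ^ 2 * b⁻¹) * b ^ 2 := by
        have : b * (b ^ 2)⁻¹ = (b ^ 2)⁻¹ * b := by group
        rw [mul_assoc (a ^ 2) b, this]
        group
      have hAB : a ^ 2 * (b ^ 2)⁻¹ = (b ^ 2)⁻¹ * a ^ 2 := by
        have c1 : SemiconjBy (a ^ 2) (b ^ 2)⁻¹ (b ^ 2)⁻¹ := by
          rw [pow_two a]
          have c2 : SemiconjBy a (b ^ 2)⁻¹ (b ^ 2) := by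
            have := haB.inv_right
            rwa [inv_inv] at this
          exact haB.mul_left c2
        exact c1
      rw [e1, haB', e2, hbA', hAB]
      group
    have h4 : a * (a * b) ^ 2 * a⁻¹ = ((a * b) ^ 2)⁻¹ := eq_inv_of_mul_eq_one_left h3
    rw [mul_inv_eq_iff_eq_mul] at h4
    exact h4
  · have h3 : (a * b) ^ 2 * (b * (a * b) ^ 2 * b⁻¹) = 1 := by
      have e1 : (a * b) ^ 2 * (b * (a * b) ^ 2 * b⁻¹) =
          a * b * (a * b ^ 2 * a⁻¹) * a ^ 2 * b * a := by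
        rw [pow_two, pow_two, pow_two]
        group
      have e2 : a * b * (b ^ 2)⁻¹ * a ^ 2 * b * a =
          a * (b ^ 2)⁻¹ * (b * a ^ 2 * b⁻¹) * b ^ 2 * a := by
        have : b * (b ^ 2)⁻¹ = (b ^ 2)⁻¹ * b := by group
        rw [mul_assoc a b, this]
        group
      have hAB : (b ^ 2)⁻¹ * (a ^ 2)⁻¹ = (a ^ 2)⁻¹ * (b ^ 2)⁻¹ := by
        have c1 : SemiconjBy (a ^ 2) (b ^ 2) (b ^ 2) := by
          rw [pow_two a]
          have c2 : SemiconjBy a (b ^ 2)⁻¹ (b ^ 2) := by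
            have := haB.inv_right
            rwa [inv_inv] at this
          exact c2.mul_left haB
        have c3 : (a ^ 2 * b ^ 2)⁻¹ = (b ^ 2 * a ^ 2)⁻¹ := by rw [c1.eq]
        rw [mul_inv_rev, mul_inv_rev] at c3
        exact c3
      rw [e1, haB', e2, hbA', mul_assoc a, hAB]
      group
    have h4 : b * (a * b) ^ 2 * b⁻¹ = ((a * b) ^ 2)⁻¹ := eq_inv_of_mul_eq_one_right h3
    rw [mul_inv_eq_iff_eq_mul] at h4
    exact h4

/-- the normal forms -/
def NF (a b : H) (g : H) : Prop :=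
  ∃ (i j k : ℤ) (r : H), (r = 1 ∨ r = a ∨ r = b ∨ r = a * b) ∧
    g = (a ^ 2) ^ i * (b ^ 2) ^ j * ((a * b) ^ 2) ^ k * r

theorem semi_inv {a x : H} (h : SemiconjBy a x x⁻¹) : SemiconjBy a x⁻¹ x := by
  have := h.inv_right
  rwa [inv_inv] at this

theorem semi_sq {a x : H} (h : SemiconjBy a x x⁻¹) : Commute (a ^ 2) x := by
  rw [pow_two]
  exact (semi_inv h).mul_left h

theorem mul_tri {A B C : H} (hAB : Commute A B) (hAC : Commute A C) (hBC : Commute B C)
    (i j k x y z : ℤ) :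
    A ^ i * B ^ j * C ^ k * (A ^ x * B ^ y * C ^ z) = A ^ (i + x) * B ^ (j + y) * C ^ (k + z) := by
  have e1 : C ^ k * (A ^ x * B ^ y) = A ^ x * B ^ y * C ^ k :=
    (((hAC.symm).zpow_zpow k x).mul_right ((hBC.symm).zpow_zpow k y)).eq
  have e2 : B ^ j * A ^ x = A ^ x * B ^ j := (hAB.symm.zpow_zpow j x).eq
  rw [zpow_add, zpow_add, zpow_add]
  calc A ^ i * B ^ j * C ^ k * (A ^ x * B ^ y * C ^ z)
      = A ^ i * B ^ j * (C ^ k * (A ^ x * B ^ y)) * C ^ z := by group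
    _ = A ^ i * (B ^ j * A ^ x) * B ^ y * C ^ k * C ^ z := by rw [e1]; group
    _ = A ^ i * A ^ x * (B ^ j * B ^ y) * (C ^ k * C ^ z) := by rw [e2]; group

theorem NF_step (h1 : a⁻¹ * b ^ 2 * a * b ^ 2 = 1) (h2 : b⁻¹ * a ^ 2 * b * a ^ 2 = 1) {t : H}
    (ht : ∀ r, (r = 1 ∨ r = a ∨ r = b ∨ r = a * b) → ∃ (x y z : ℤ) (r' : H),
      (r' = 1 ∨ r' = a ∨ r' = b ∨ r' = a * b) ∧
      r * t = (a ^ 2) ^ x * (b ^ 2) ^ y * ((a * b) ^ 2) ^ z * r') {g : H} (hg : NF a b g) :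
    NF a b (g * t) := by
  obtain ⟨haA, haB, haC, hbA, hbB, hbC⟩ := hw_data h1 h2
  obtain ⟨i, j, k, r, hr, rfl⟩ := hg
  obtain ⟨x, y, z, r', hr', he⟩ := ht r hr
  refine ⟨i + x, j + y, k + z, r', hr', ?_⟩
  rw [← mul_tri (semi_sq haB) (semi_sq haC) (semi_sq hbC), mul_assoc, he]
  simp only [mul_assoc]

theorem NF_mul (h1 : a⁻¹ * b ^ 2 * a * b ^ 2 = 1) (h2 : b⁻¹ * a ^ 2 * b * a ^ 2 = 1) :
    (∀ g, NF a b g → NF a b (g * a)) ∧ (∀ g, NF a b g → NF a b (g * b)) ∧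
    (∀ g, NF a b g → NF a b (g * a⁻¹)) ∧ (∀ g, NF a b g → NF a b (g * b⁻¹)) := by
  obtain ⟨haA, haB, haC, hbA, hbB, hbC⟩ := hw_data h1 h2
  have p1 : a * b ^ 2 = (b ^ 2)⁻¹ * a := haB.eq
  have p2 : b * a ^ 2 = (a ^ 2)⁻¹ * b := hbA.eq
  have p3 : a * (b ^ 2)⁻¹ = b ^ 2 * a := (semi_inv haB).eq
  have p4 : b * (a ^ 2)⁻¹ = a ^ 2 * b := (semi_inv hbA).eq
  have ga : ∀ g, NF a b g → NF a b (g * a) := by
    intro g hg
    refine NF_step h1 h2 (fun r hr => ?_) hg
    rcases hr with rfl | rfl | rfl | rfl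
    · exact ⟨0, 0, 0, a, by simp, by simp⟩
    · exact ⟨1, 0, 0, 1, by simp, by simp [pow_two]⟩
    · refine ⟨-1, 1, -1, a * r, by simp, ?_⟩
      have : (a ^ 2)⁻¹ * r ^ 2 * ((a * r) ^ 2)⁻¹ * (a * r) = ((a ^ 2)⁻¹ * r) * a⁻¹ := by
        rw [pow_two (a * r), pow_two r]
        group
      rw [zpow_neg_one, zpow_one, zpow_neg_one, this, ← p2, pow_two]
      group
    · refine ⟨0, -1, 1, b, by simp, ?_⟩
      have : (b ^ 2)⁻¹ * (a * b) ^ 2 * b = (b ^ 2)⁻¹ * (a * b * a) * b ^ 2 := by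
        rw [pow_two (a * b), pow_two b]
        group
      have p5 : a * b * (b ^ 2)⁻¹ = b ^ 2 * (a * b) := by
        have : b * (b ^ 2)⁻¹ = (b ^ 2)⁻¹ * b := by group
        rw [mul_assoc, this, ← mul_assoc, p3, mul_assoc]
      have p6 : a * b * a * b ^ 2 = b ^ 2 * (a * b * a) := by
        calc a * b * a * b ^ 2 = a * b * (a * b ^ 2) := by group
          _ = a * b * (b ^ 2)⁻¹ * a := by rw [p1]; group
          _ = b ^ 2 * (a * b) * a := by rw [p5]
          _ = b ^ 2 * (a * b * a) := by group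
      rw [zpow_zero, one_mul, zpow_neg_one, zpow_one, this, mul_assoc (b ^ 2)⁻¹, p6]
      group
  have gb : ∀ g, NF a b g → NF a b (g * b) := by
    intro g hg
    refine NF_step h1 h2 (fun r hr => ?_) hg
    rcases hr with rfl | rfl | rfl | rfl
    · exact ⟨0, 0, 0, b, by simp, by simp⟩
    · exact ⟨0, 0, 0, r * b, by simp, by simp⟩
    · exact ⟨0, 1, 0, 1, by simp, by simp [pow_two]⟩
    · refine ⟨0, -1, 0, a, by simp, ?_⟩
      rw [zpow_zero, one_mul, zpow_neg_one, zpow_zero, mul_one, ← p1, pow_two, mul_assoc]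
  have gA : ∀ g, NF a b g → NF a b (g * (a ^ 2)⁻¹) := by
    intro g hg
    refine NF_step h1 h2 (fun r hr => ?_) hg
    rcases hr with rfl | rfl | rfl | rfl
    · exact ⟨-1, 0, 0, 1, by simp, by simp⟩
    · refine ⟨-1, 0, 0, r, by simp, ?_⟩
      rw [zpow_neg_one, zpow_zero, mul_one, zpow_zero, mul_one, pow_two]
      group
    · refine ⟨1, 0, 0, r, by simp, ?_⟩
      rw [zpow_one, zpow_zero, mul_one, zpow_zero, mul_one, p4]
    · refine ⟨1, 0, 0, a * b, by simp, ?_⟩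
      rw [zpow_one, zpow_zero, mul_one, zpow_zero, mul_one, mul_assoc, p4]
      group
  have gB : ∀ g, NF a b g → NF a b (g * (b ^ 2)⁻¹) := by
    intro g hg
    refine NF_step h1 h2 (fun r hr => ?_) hg
    rcases hr with rfl | rfl | rfl | rfl
    · exact ⟨0, -1, 0, 1, by simp, by simp⟩
    · refine ⟨0, 1, 0, r, by simp, ?_⟩
      rw [zpow_one, zpow_zero, one_mul, zpow_zero, mul_one, p3]
    · refine ⟨0, -1, 0, r, by simp, ?_⟩
      rw [zpow_neg_one, zpow_zero, one_mul, zpow_zero, mul_one, pow_two]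
      group
    · refine ⟨0, 1, 0, a * b, by simp, ?_⟩
      have : b * (b ^ 2)⁻¹ = (b ^ 2)⁻¹ * b := by group
      rw [zpow_one, zpow_zero, one_mul, zpow_zero, mul_one, mul_assoc, this, ← mul_assoc, p3,
        mul_assoc]
  refine ⟨ga, gb, fun g hg => ?_, fun g hg => ?_⟩
  · have := gA _ (ga g hg)
    rwa [show g * a * (a ^ 2)⁻¹ = g * a⁻¹ by rw [pow_two]; group] at this
  · have := gB _ (gb g hg)
    rwa [show g * b * (b ^ 2)⁻¹ = g * b⁻¹ by rw [pow_two]; group] at this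

theorem NF_all (f : Fin 2 → H) (h1 : (f 0)⁻¹ * (f 1) ^ 2 * (f 0) * (f 1) ^ 2 = 1)
    (h2 : (f 1)⁻¹ * (f 0) ^ 2 * (f 1) * (f 0) ^ 2 = 1) (W : FreeGroup (Fin 2)) :
    NF (f 0) (f 1) (FreeGroup.lift f W) := by
  obtain ⟨ga, gb, ga', gb'⟩ := NF_mul h1 h2
  have key : ∀ g, NF (f 0) (f 1) g → NF (f 0) (f 1) (g * FreeGroup.lift f W) := by
    induction W using FreeGroup.induction_on with
    | C1 =>
      intro g hg
      rwa [map_one, mul_one]
    | of s =>
      intro g hg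
      rw [FreeGroup.lift_apply_of]
      fin_cases s
      · exact ga g hg
      · exact gb g hg
    | inv_of s _ =>
      intro g hg
      rw [map_inv, FreeGroup.lift_apply_of]
      fin_cases s
      · exact ga' g hg
      · exact gb' g hg
    | mul x y hx hy =>
      intro g hg
      rw [map_mul, ← mul_assoc]
      exact hy _ (hx g hg)
  have := key 1 ⟨0, 0, 0, 1, by simp, by simp⟩
  rwa [one_mul] at this

end normalForm

theorem theta_sq (χ : Fin 2 → ℤˣ) (t : Fin 2) (v : Fin 2 →₀ ℤ) :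
    theta (Fin 2) χ (FreeGroup.of t ^ 2) v = v + (1 + (χ t : ℤ)) • single t 1 := by
  have := theta_tw χ t [] v
  rwa [List.map_nil, List.prod_nil, mul_one] at this

theorem exists_neg {χ : Fin 2 → ℤˣ} (hχ : χ ≠ 1) :
    (1 + (χ 0 : ℤ)) * (1 + (χ 1 : ℤ)) = 0 := by
  rcases Int.units_eq_one_or (χ 0) with h | h
  · rcases Int.units_eq_one_or (χ 1) with h' | h'
    · exfalso
      apply hχ
      funext s
      fin_cases s
      · exact h
      · exact h'
    · rw [h']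
      simp
  · rw [h]
    simp

theorem rel_mem (s t : Fin 2) (hst : ∀ χ : Fin 2 → ℤˣ, χ ≠ 1 →
    (1 + (χ s : ℤ)) * (1 + (χ t : ℤ)) = 0) :
    (FreeGroup.of s)⁻¹ * FreeGroup.of t ^ 2 * FreeGroup.of s * FreeGroup.of t ^ 2 ∈
      KS (Fin 2) := by
  rw [mem_KS]
  intro χ hχ
  ext1 v
  have e : (χ s : ℤ) • ((1 + (χ t : ℤ)) • (single t 1 : Fin 2 →₀ ℤ)) +
      (1 + (χ t : ℤ)) • single t 1 = 0 := by
    rw [smul_smul, ← add_smul]
    have : (χ s : ℤ) * (1 + (χ t : ℤ)) + (1 + (χ t : ℤ)) = 0 := by linear_combination hst χ hχ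
    rw [this, zero_smul]
  rw [map_mul, map_mul, map_mul, Equiv.Perm.mul_apply, Equiv.Perm.mul_apply,
    Equiv.Perm.mul_apply, theta_sq, theta_of, theta_sq, theta_inv_of]
  have e2 : (χ s : ℤ) • ((χ s : ℤ) • (v + (1 + (χ t : ℤ)) • single t 1) + single s 1 +
      (1 + (χ t : ℤ)) • single t 1 - single s 1) =
      v + ((χ s : ℤ) • ((1 + (χ t : ℤ)) • (single t 1 : Fin 2 →₀ ℤ)) +
      (1 + (χ t : ℤ)) • single t 1) := by
    have e3 : (χ s : ℤ) • ((χ s : ℤ) • (v + (1 + (χ t : ℤ)) • single t 1) + single s 1 +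
      (1 + (χ t : ℤ)) • single t 1 - single s 1) = (χ s : ℤ) • (χ s : ℤ) •
        (v + (1 + (χ t : ℤ)) • single t 1) + (χ s : ℤ) • ((1 + (χ t : ℤ)) •
        (single t 1 : Fin 2 →₀ ℤ)) := by
      rw [← smul_add]
      congr 1
      abel
    rw [e3, smul_smul, ← Units.val_mul, Int.units_mul_self, Units.val_one, one_smul]
    abel
  rw [e2, e, add_zero]
  rfl

theorem rels_le : ∀ r ∈ hwRels, r ∈ KS (Fin 2) := by
  intro r hr
  rcases hr with rfl | rfl
  · exact rel_mem 0 1 fun χ hχ => exists_neg hχ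
  · exact rel_mem 1 0 fun χ hχ => by rw [mul_comm]; exact exists_neg hχ

/-- the homomorphism from the Hantzsche-Wendt group to `G_2` -/
noncomputable def toGS : HWGroup →* GS (Fin 2) :=
  QuotientGroup.lift _ (QuotientGroup.mk' (KS (Fin 2))) (by
    intro g hg
    have : Subgroup.normalClosure hwRels ≤ KS (Fin 2) :=
      Subgroup.normalClosure_le_normal fun r hr => rels_le r hr
    exact (QuotientGroup.eq_one_iff _).2 (this hg))

theorem toGS_surjective : Function.Surjective toGS := by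
  intro g
  induction g using QuotientGroup.induction_on with
  | H g => exact ⟨QuotientGroup.mk g, rfl⟩

theorem theta_prod (χ : Fin 2 → ℤˣ) (v : Fin 2 →₀ ℤ) :
    theta (Fin 2) χ ((FreeGroup.of 0 * FreeGroup.of 1) ^ 2) v =
      v + (1 + (χ 0 : ℤ) * (χ 1 : ℤ)) • ((χ 0 : ℤ) • single 1 1 + single 0 1) := by
  rw [map_pow, pow_two, Equiv.Perm.mul_apply, map_mul, Equiv.Perm.mul_apply,
    Equiv.Perm.mul_apply, theta_of, theta_of, theta_of, theta_of]
  rcases Int.units_eq_one_or (χ 0) with h | h <;>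
  rcases Int.units_eq_one_or (χ 1) with h' | h' <;> rw [h, h'] <;>
  · ext k
    simp only [Units.val_one, Units.val_neg, smul_add, Finsupp.add_apply, Finsupp.smul_apply,
      smul_eq_mul]
    ring

theorem zpow_addRight {A : Type} [AddCommGroup A] (c : A) (n : ℤ) (v : A) :
    ((Equiv.addRight c) ^ n : Equiv.Perm A) v = v + n • c := by
  induction n generalizing v with
  | zero => simp
  | succ n ih =>
    rw [zpow_add_one, Equiv.Perm.mul_apply, ih]
    change v + c + _ = _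
    rw [add_smul, one_smul]
    abel
  | pred n ih =>
    rw [zpow_sub_one, Equiv.Perm.mul_apply, ih]
    change v + -c + _ = _
    rw [sub_smul, one_smul]
    abel

theorem theta_word (χ : Fin 2 → ℤˣ) (i j k : ℤ) :
    theta (Fin 2) χ ((FreeGroup.of 0 ^ 2) ^ i * (FreeGroup.of 1 ^ 2) ^ j *
      ((FreeGroup.of 0 * FreeGroup.of 1) ^ 2) ^ k) 0 =
      k • ((1 + (χ 0 : ℤ) * (χ 1 : ℤ)) • ((χ 0 : ℤ) • single 1 1 + single 0 1)) +
      j • ((1 + (χ 1 : ℤ)) • single 1 1) + i • ((1 + (χ 0 : ℤ)) • single 0 1) := by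
  have e0 : theta (Fin 2) χ (FreeGroup.of 0 ^ 2) =
      Equiv.addRight ((1 + (χ 0 : ℤ)) • single (0 : Fin 2) (1 : ℤ)) := by
    ext1 v
    exact theta_sq χ 0 v
  have e1 : theta (Fin 2) χ (FreeGroup.of 1 ^ 2) =
      Equiv.addRight ((1 + (χ 1 : ℤ)) • single (1 : Fin 2) (1 : ℤ)) := by
    ext1 v
    exact theta_sq χ 1 v
  have e2 : theta (Fin 2) χ ((FreeGroup.of 0 * FreeGroup.of 1) ^ 2) =
      Equiv.addRight ((1 + (χ 0 : ℤ) * (χ 1 : ℤ)) • ((χ 0 : ℤ) • single (1 : Fin 2) (1 : ℤ) +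
        single (0 : Fin 2) (1 : ℤ))) := by
    ext1 v
    exact theta_prod χ v
  rw [map_mul, map_mul, map_zpow, map_zpow, map_zpow, e0, e1, e2, Equiv.Perm.mul_apply,
    Equiv.Perm.mul_apply, zpow_addRight, zpow_addRight, zpow_addRight, zero_add]

theorem toGS_injective : Function.Injective toGS := by
  rw [injective_iff_map_eq_one]
  intro g hg
  induction g using QuotientGroup.induction_on with
  | H W =>
  have hW : W ∈ KS (Fin 2) := (QuotientGroup.eq_one_iff _).1 hg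
  let N := Subgroup.normalClosure hwRels
  have hN : N ≤ KS (Fin 2) := Subgroup.normalClosure_le_normal fun r hr => rels_le r hr
  let f : Fin 2 → HWGroup := fun s => PresentedGroup.of s
  have hf : FreeGroup.lift f = QuotientGroup.mk' N := by
    apply FreeGroup.ext_hom
    intro s
    rw [FreeGroup.lift_apply_of]
    rfl
  have hrel : ∀ r ∈ hwRels, FreeGroup.lift f r = 1 := by
    intro r hr
    rw [hf]
    exact (QuotientGroup.eq_one_iff _).2 (Subgroup.subset_normalClosure hr)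
  have h1 : (f 0)⁻¹ * (f 1) ^ 2 * (f 0) * (f 1) ^ 2 = 1 := by
    have := hrel _ (Or.inl rfl)
    rwa [map_mul, map_mul, map_mul, map_inv, map_pow, FreeGroup.lift_apply_of,
      FreeGroup.lift_apply_of] at this
  have h2 : (f 1)⁻¹ * (f 0) ^ 2 * (f 1) * (f 0) ^ 2 = 1 := by
    have := hrel _ (Or.inr rfl)
    rwa [map_mul, map_mul, map_mul, map_inv, map_pow, FreeGroup.lift_apply_of,
      FreeGroup.lift_apply_of] at this
  obtain ⟨i, j, k, r, hr, he⟩ := NF_all f h1 h2 W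
  have hr' : ∃ R : FreeGroup (Fin 2), FreeGroup.lift f R = r ∧ (R = 1 ∨ R = FreeGroup.of 0 ∨
      R = FreeGroup.of 1 ∨ R = FreeGroup.of 0 * FreeGroup.of 1) := by
    rcases hr with rfl | rfl | rfl | rfl
    · exact ⟨1, map_one _, by simp⟩
    · exact ⟨FreeGroup.of 0, FreeGroup.lift_apply_of, by simp⟩
    · exact ⟨FreeGroup.of 1, FreeGroup.lift_apply_of, by simp⟩
    · exact ⟨FreeGroup.of 0 * FreeGroup.of 1, by
        rw [map_mul, FreeGroup.lift_apply_of, FreeGroup.lift_apply_of], by simp⟩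
  obtain ⟨R, hR, hR'⟩ := hr'
  let W' : FreeGroup (Fin 2) := (FreeGroup.of 0 ^ 2) ^ i * (FreeGroup.of 1 ^ 2) ^ j *
    ((FreeGroup.of 0 * FreeGroup.of 1) ^ 2) ^ k * R
  have hW'e : FreeGroup.lift f W' = FreeGroup.lift f W := by
    rw [he]
    simp only [W', map_mul, map_zpow, map_pow, FreeGroup.lift_apply_of, hR]
  have hW' : W' ∈ KS (Fin 2) := by
    rw [hf] at hW'e
    have h3 : W'⁻¹ * W ∈ N := QuotientGroup.eq.1 hW'e
    have h4 := (KS (Fin 2)).inv_mem (hN h3)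
    rw [mul_inv_rev, inv_inv] at h4
    have h5 := (KS (Fin 2)).mul_mem hW h4
    rwa [← mul_assoc, mul_inv_cancel, one_mul] at h5
  have hth := mem_KS.1 hW'
  have hlin : ∀ χ : Fin 2 → ℤˣ, χ ≠ 1 → FreeGroup.lift χ R = 1 := by
    intro χ hχ
    have h3 := theta_apply χ W' (single 0 1)
    rw [hth χ hχ] at h3
    have h4 : ((FreeGroup.lift χ W' : ℤˣ) : ℤ) = 1 := by
      have := DFunLike.congr_fun h3 0
      simpa using this.symm
    have h5 : FreeGroup.lift χ W' = FreeGroup.lift χ R := by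
      simp only [W', map_mul, map_zpow, map_pow, Int.units_sq, one_zpow, one_mul]
    rw [← h5]
    exact Units.ext h4
  have hneq : ∀ c d : ℤˣ, (c = -1 ∨ d = -1) → (![c, d] : Fin 2 → ℤˣ) ≠ 1 := by
    intro c d hcd h
    rcases hcd with rfl | rfl
    · have h' : (-1 : ℤˣ) = 1 := congrFun h 0
      exact absurd h' (by decide)
    · have h' : (-1 : ℤˣ) = 1 := congrFun h 1
      exact absurd h' (by decide)
  have hR1 : R = 1 := by
    rcases hR' with h | h | h | h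
    · exact h
    · exfalso
      have := hlin ![-1, 1] (hneq _ _ (Or.inl rfl))
      rw [h, FreeGroup.lift_apply_of] at this
      exact absurd this (by decide)
    · exfalso
      have := hlin ![1, -1] (hneq _ _ (Or.inr rfl))
      rw [h, FreeGroup.lift_apply_of] at this
      exact absurd this (by decide)
    · exfalso
      have := hlin ![-1, 1] (hneq _ _ (Or.inl rfl))
      rw [h, map_mul, FreeGroup.lift_apply_of, FreeGroup.lift_apply_of] at this
      exact absurd this (by decide)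
  have hword : ∀ χ : Fin 2 → ℤˣ, χ ≠ 1 →
      k • ((1 + (χ 0 : ℤ) * (χ 1 : ℤ)) • ((χ 0 : ℤ) • single 1 1 + single 0 1)) +
      j • ((1 + (χ 1 : ℤ)) • single 1 1) + i • ((1 + (χ 0 : ℤ)) • single 0 1) =
      (0 : Fin 2 →₀ ℤ) := by
    intro χ hχ
    rw [← theta_word]
    have h3 := hth χ hχ
    simp only [W', hR1, mul_one] at h3
    rw [h3]
    rfl
  have hi : i = 0 := by
    have h3 := DFunLike.congr_fun (hword ![1, -1] (hneq _ _ (Or.inr rfl))) 0
    simpa using h3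
  have hj : j = 0 := by
    have h3 := DFunLike.congr_fun (hword ![-1, 1] (hneq _ _ (Or.inl rfl))) 1
    simpa using h3
  have hk : k = 0 := by
    have h3 := DFunLike.congr_fun (hword ![-1, -1] (hneq _ _ (Or.inl rfl))) 0
    simpa using h3
  have h6 : W' = 1 := by
    simp only [W', hi, hj, hk, hR1, zpow_zero, mul_one]
  rw [h6, map_one] at hW'e
  rw [hf] at hW'e
  exact hW'e.symm

/-- the Hantzsche-Wendt group is `G_2` -/
noncomputable def hwEquiv : HWGroup ≃* GS (Fin 2) :=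
  MulEquiv.ofBijective toGS ⟨toGS_injective, toGS_surjective⟩

end Pool.Agent.Work.MP_d45015_al.HW
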