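import Pool.Agent.Work.MP_d45015_al.HW.Two

/-! # `G_S` is not locally indicable for finite `S` -/

namespace Pool.Agent.Work.MP_d45015_al.HW

theorem exists_hom_ne {S : Type} [Nontrivial S] (s : S) :
    ∃ g : GS S, (dataGS S).q g ≠ 0 := by
  refine ⟨QuotientGroup.mk (FreeGroup.of s), ?_⟩
  change (q₀ S (FreeGroup.of s)).toAdd ≠ 0
  rw [q₀_of]
  intro h
  have := DFunLike.congr_fun h s
  rw [Finsupp.single_eq_same, Finsupp.zero_apply] at this
  exact one_ne_zero this

theorem not_li {S : Type} [Nontrivial S] [Finite S] :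
    ∃ H : Subgroup (GS S), H.FG ∧ H ≠ ⊥ ∧ ∀ φ : H →* Multiplicative ℤ, φ = 1 := by
  refine ⟨⊤, ?_, ?_, ?_⟩
  · exact (Group.fg_def).1 inferInstance
  · obtain ⟨s⟩ : Nonempty S := inferInstance
    obtain ⟨g, hg⟩ := exists_hom_ne s
    intro h
    have h1 : g ∈ (⊥ : Subgroup (GS S)) := by
      rw [← h]
      exact Subgroup.mem_top g
    rw [Subgroup.mem_bot] at h1
    rw [h1, Data.q_one] at hg
    exact hg rfl
  · intro φ
    have h1 := hom_trivial (φ.comp (Subgroup.topEquiv (G := GS S)).symm.toMonoidHom)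
    ext g
    have h2 := DFunLike.congr_fun h1 (g : GS S)
    exact congrArg Multiplicative.toAdd h2

end Pool.Agent.Work.MP_d45015_al.HW
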