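import Mathlib

/-! # Two-sided sequences satisfying a linear recurrence with values in a set -/

namespace Pool.Agent.Work.MP_d45015_al.HW

/-- the one-sided sequence with constant initial window, continued by `e` -/
noncomputable def ext1 {X : Type*} (m : ℕ) (x₀ : X) (e : (Fin m → X) → X) : ℕ → X
  | n => if _h : n < m then x₀ else e fun i : Fin m => ext1 m x₀ e (n - m + i)
  decreasing_by
    have := i.2
    omega

theorem ext1_lt {X : Type*} {m : ℕ} {x₀ : X} {e : (Fin m → X) → X} {n : ℕ} (h : n < m) :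
    ext1 m x₀ e n = x₀ := by
  rw [ext1, dif_pos h]

theorem ext1_ge {X : Type*} {m : ℕ} {x₀ : X} {e : (Fin m → X) → X} {n : ℕ} (h : m ≤ n) :
    ext1 m x₀ e n = e fun i : Fin m => ext1 m x₀ e (n - m + i) := by
  rw [ext1, dif_neg (by omega)]

/-- Let `φ_0, …, φ_m` be functions from `X` to an additive group such that `φ_0` and `φ_m` are
surjective. There is a two-sided sequence `a` with given value at `0` such that
`∑ φ_j (a (r + j)) = 0` for all `r`. -/
theorem exists_seq {X A : Type*} [AddCommGroup A] (m : ℕ) (hm : 0 < m) (φ : ℕ → X → A)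
    (h0 : ∀ t, ∃ x, φ 0 x = t) (hm' : ∀ t, ∃ x, φ m x = t) (x₀ : X) :
    ∃ a : ℤ → X, a 0 = x₀ ∧ ∀ r : ℤ, ∑ j ∈ Finset.range (m + 1), φ j (a (r + j)) = 0 := by
  choose e0 he0 using h0
  choose em hem using hm'
  -- forward
  let b : ℕ → X := ext1 m x₀ fun w => em (-∑ j : Fin m, φ j (w j))
  -- backward, `c n` is the value at `m - 1 - n`
  let c : ℕ → X := ext1 m x₀ fun w => e0 (-∑ j : Fin m, φ (m - j) (w j))
  have hb : ∀ n, n < m → b n = x₀ := fun n hn => ext1_lt hn
  have hc : ∀ n, n < m → c n = x₀ := fun n hn => ext1_lt hn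
  have hb' : ∀ n, ∑ j ∈ Finset.range (m + 1), φ j (b (n + j)) = 0 := by
    intro n
    rw [Finset.sum_range_succ]
    have h1 : b (n + m) = em (-∑ j : Fin m, φ j (b (n + j))) := by
      have h2 : b (n + m) = em (-∑ j : Fin m, φ j (b (n + m - m + j))) :=
        ext1_ge (by omega)
      rw [h2]
      simp only [Nat.add_sub_cancel]
    rw [h1, hem, ← Fin.sum_univ_eq_sum_range (fun j => φ j (b (n + j))) m]
    exact add_neg_cancel _
  have hc' : ∀ n, m ≤ n → ∑ j ∈ Finset.range (m + 1), φ j (c (n - j)) = 0 := by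
    intro n hn
    rw [Finset.sum_range_succ']
    have h1 : c n = e0 (-∑ j : Fin m, φ (m - j) (c (n - m + j))) := ext1_ge hn
    have h2 : ∑ j ∈ Finset.range m, φ (j + 1) (c (n - (j + 1))) =
        ∑ j : Fin m, φ (m - j) (c (n - m + j)) := by
      rw [Fin.sum_univ_eq_sum_range (fun j => φ (m - j) (c (n - m + j))) m,
        ← Finset.sum_range_reflect]
      refine Finset.sum_congr rfl fun j hj => ?_
      rw [Finset.mem_range] at hj
      congr 2
      · omega
      · omega
    rw [h2]
    simp only [Nat.sub_zero]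
    rw [h1, he0]
    exact add_neg_cancel _
  refine ⟨fun i => if 0 ≤ i then b i.toNat else c (m - 1 - i).toNat, ?_, ?_⟩
  · simp [hb 0 hm]
  · intro r
    by_cases hr : 0 ≤ r
    · obtain ⟨n, rfl⟩ := Int.eq_ofNat_of_zero_le hr
      rw [← hb' n]
      refine Finset.sum_congr rfl fun j _ => ?_
      dsimp only
      rw [if_pos (by positivity)]
      congr 2
    · push Not at hr
      have hn : m ≤ (m - 1 - r).toNat := by omega
      rw [← hc' _ hn]
      refine Finset.sum_congr rfl fun j hj => ?_
      rw [Finset.mem_range] at hj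
      dsimp only
      by_cases h3 : 0 ≤ r + j
      · rw [if_pos h3, hb _ (by omega), hc _ (by omega)]
      · rw [if_neg h3]
        congr 2
        omega

end Pool.Agent.Work.MP_d45015_al.HW
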