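import Pool.Agent.Work.MP_d45015_al.HW.Final

/-! # Two-level words with coefficients in two different subgroups -/

namespace Pool.Agent.Work.MP_d45015_al.HW

open Finsupp Function

section affine

variable {G S : Type} [Group G] (D : Data G S)

/-- an affine action on `ℚ` -/
noncomputable def aff1 (α : NZ S) (y : (S →₀ ℤ) →+ ℚ) : G →* Function.End ℚ where
  toFun g := fun z => (sg (L α.1 (D.q g)) : ℚ) * z + y (D.u α.1 g)
  map_one' := by
    funext z
    rw [D.q_one, map_zero, sg_zero, D.u_one α.2, map_zero]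
    simp
    rfl
  map_mul' g h := by
    funext z
    change _ = (sg (L α.1 (D.q g)) : ℚ) * ((sg (L α.1 (D.q h)) : ℚ) * z + y (D.u α.1 h)) +
      y (D.u α.1 g)
    rw [D.q_mul, map_add, sg_add, D.u_mul _ α.2, map_add, map_zsmul, zsmul_eq_mul]
    push_cast
    ring

/-- the same as a homomorphism to the permutations -/
noncomputable def aff (α : NZ S) (y : (S →₀ ℤ) →+ ℚ) : G →* Equiv.Perm ℚ :=
  (Equiv.Perm.equivUnitsEnd.symm.toMonoidHom).comp (MonoidHom.toHomUnits (aff1 D α y))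

theorem aff_apply (α : NZ S) (y : (S →₀ ℤ) →+ ℚ) (g : G) (z : ℚ) :
    aff D α y g z = (sg (L α.1 (D.q g)) : ℚ) * z + y (D.u α.1 g) := rfl

end affine

section two

variable {A B S T : Type} [Group A] [Group B] (DA : Data A S) (DB : Data B T)

/-- the row of the first factor -/
noncomputable def rowA (α : S → ZMod 2) (β : T → ZMod 2) : List (A × B) → (S →₀ ℤ)
  | [] => 0
  | p :: w => DA.u α p.1 + (sg (L α (DA.q p.1)) * sg (L β (DB.q p.2))) • rowA α β w

/-- the row of the second factor -/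
noncomputable def rowB (α : S → ZMod 2) (β : T → ZMod 2) : List (A × B) → (T →₀ ℤ)
  | [] => 0
  | p :: w => sg (L α (DA.q p.1)) • DB.u β p.2 +
      (sg (L α (DA.q p.1)) * sg (L β (DB.q p.2))) • rowB α β w

theorem rowA_mod {α : S → ZMod 2} (hα : α ≠ 0) (β : T → ZMod 2) (w : List (A × B)) (k : S) :
    ((rowA DA DB α β w k : ℤ) : ZMod 2) = DA.q ((w.map Prod.fst).prod) k := by
  induction w with
  | nil => simp [rowA, DA.q_one]
  | cons p w ih =>
    rw [List.map_cons, List.prod_cons, DA.q_mul]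
    change ((((DA.u α p.1 + (sg (L α (DA.q p.1)) * sg (L β (DB.q p.2))) •
      rowA DA DB α β w) k : ℤ)) : ZMod 2) = _
    rw [Finsupp.add_apply, Finsupp.smul_apply, smul_eq_mul, Int.cast_add, Int.cast_mul,
      Int.cast_mul, sg_mod, sg_mod, one_mul, one_mul, ih, DA.u_mod α hα, Finsupp.add_apply]

theorem rowB_mod (α : S → ZMod 2) {β : T → ZMod 2} (hβ : β ≠ 0) (w : List (A × B)) (k : T) :
    ((rowB DA DB α β w k : ℤ) : ZMod 2) = DB.q ((w.map Prod.snd).prod) k := by
  induction w with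
  | nil => simp [rowB, DB.q_one]
  | cons p w ih =>
    rw [List.map_cons, List.prod_cons, DB.q_mul]
    change ((((sg (L α (DA.q p.1)) • DB.u β p.2 +
      (sg (L α (DA.q p.1)) * sg (L β (DB.q p.2))) • rowB DA DB α β w) k : ℤ)) : ZMod 2) = _
    rw [Finsupp.add_apply, Finsupp.smul_apply, Finsupp.smul_apply, smul_eq_mul, smul_eq_mul,
      Int.cast_add, Int.cast_mul, Int.cast_mul, Int.cast_mul, sg_mod, sg_mod, one_mul, one_mul,
      one_mul, ih, DB.u_mod β hβ, Finsupp.add_apply]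

theorem two_word (α : NZ S) (β : NZ T) (yA : (S →₀ ℤ) →+ ℚ) (yB : (T →₀ ℤ) →+ ℚ)
    (w : List (A × B)) (z : ℚ) :
    (w.map fun p => aff DA α yA p.1 * aff DB β yB p.2).prod z =
      (sg (L α.1 (DA.q ((w.map Prod.fst).prod)) + L β.1 (DB.q ((w.map Prod.snd).prod))) : ℚ) * z +
        (yA (rowA DA DB α.1 β.1 w) + yB (rowB DA DB α.1 β.1 w)) := by
  induction w generalizing z with
  | nil => simp [rowA, rowB, DA.q_one, DB.q_one, sg_zero]
  | cons p w ih =>
    rw [List.map_cons, List.prod_cons, Equiv.Perm.mul_apply, ih, Equiv.Perm.mul_apply, aff_apply,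
      aff_apply, List.map_cons, List.prod_cons, List.map_cons, List.prod_cons, DA.q_mul, DB.q_mul,
      map_add, map_add]
    have e1 : rowA DA DB α.1 β.1 (p :: w) = DA.u α.1 p.1 +
      (sg (L α.1 (DA.q p.1)) * sg (L β.1 (DB.q p.2))) • rowA DA DB α.1 β.1 w := rfl
    have e2 : rowB DA DB α.1 β.1 (p :: w) = sg (L α.1 (DA.q p.1)) • DB.u β.1 p.2 +
      (sg (L α.1 (DA.q p.1)) * sg (L β.1 (DB.q p.2))) • rowB DA DB α.1 β.1 w := rfl
    rw [e1, e2, map_add, map_add, map_zsmul, map_zsmul, map_zsmul, zsmul_eq_mul, zsmul_eq_mul,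
      zsmul_eq_mul]
    have e3 : L α.1 (DA.q p.1) + L α.1 (DA.q ((w.map Prod.fst).prod)) +
        (L β.1 (DB.q p.2) + L β.1 (DB.q ((w.map Prod.snd).prod))) =
        L α.1 (DA.q p.1) + (L β.1 (DB.q p.2) + (L α.1 (DA.q ((w.map Prod.fst).prod)) +
          L β.1 (DB.q ((w.map Prod.snd).prod)))) := by ring
    rw [e3, sg_add (L α.1 (DA.q p.1)), sg_add (L β.1 (DB.q p.2))]
    push_cast
    ring

/-- a functional with a prescribed value at a nonzero vector -/
theorem exists_val {T : Type} {v : T →₀ ℤ} (hv : v ≠ 0) (c : ℚ) :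
    ∃ y : (T →₀ ℤ) →+ ℚ, y v = c := by
  obtain ⟨k, hk⟩ := Finsupp.ne_iff.1 hv
  have hk' : ((v k : ℤ) : ℚ) ≠ 0 := by exact_mod_cast hk
  refine ⟨(AddMonoidHom.mulLeft (c / (v k : ℤ))).comp
    ((Int.castAddHom ℚ).comp (Finsupp.applyAddHom k)), ?_⟩
  change c / (v k : ℤ) * ((v k : ℤ) : ℚ) = c
  field_simp

/-- coordinate functional -/
noncomputable def coordQ {S : Type} (k : S) : (S →₀ ℤ) →+ ℚ :=
  (Int.castAddHom ℚ).comp (Finsupp.applyAddHom k)

theorem two_core [Nontrivial S] [Nontrivial T] (w : List (A × B))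
    (ha : DA.q ((w.map Prod.fst).prod) ≠ 0) (hb : DB.q ((w.map Prod.snd).prod) ≠ 0) :
    ∃ (H : Type) (_ : Group H) (ιA : A →* H) (ιB : B →* H), Injective ιA ∧ Injective ιB ∧
      (w.map fun p => ιA p.1 * ιB p.2).prod = 1 := by
  classical
  have repA : ∀ c : NZ S × S, ∃ (θA : A →* Equiv.Perm ℚ) (θB : B →* Equiv.Perm ℚ),
      (w.map fun p => θA p.1 * θB p.2).prod = 1 ∧
      ∀ g z, θA g z = (sg (L c.1.1 (DA.q g)) : ℚ) * z + DA.u c.1.1 g c.2 := by
    rintro ⟨α, k⟩
    obtain ⟨β, hβ⟩ := L_surj hb (L α.1 (DA.q ((w.map Prod.fst).prod)))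
    have hne : rowB DA DB α.1 β.1 w ≠ 0 := by
      intro h0
      apply hb
      ext k
      rw [← rowB_mod DA DB α.1 β.2 w k, h0]
      simp
    obtain ⟨yB, hyB⟩ := exists_val hne (-(coordQ k (rowA DA DB α.1 β.1 w)))
    refine ⟨aff DA α (coordQ k), aff DB β yB, ?_, fun g z => rfl⟩
    ext1 z
    rw [two_word, hyB, hβ, add_neg_cancel, add_zero, CharTwo.add_self_eq_zero, sg_zero]
    simp
  have repB : ∀ c : NZ T × T, ∃ (θA : A →* Equiv.Perm ℚ) (θB : B →* Equiv.Perm ℚ),
      (w.map fun p => θA p.1 * θB p.2).prod = 1 ∧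
      ∀ g z, θB g z = (sg (L c.1.1 (DB.q g)) : ℚ) * z + DB.u c.1.1 g c.2 := by
    rintro ⟨β, k⟩
    obtain ⟨α, hα⟩ := L_surj ha (L β.1 (DB.q ((w.map Prod.snd).prod)))
    have hne : rowA DA DB α.1 β.1 w ≠ 0 := by
      intro h0
      apply ha
      ext k
      rw [← rowA_mod DA DB α.2 β.1 w k, h0]
      simp
    obtain ⟨yA, hyA⟩ := exists_val hne (-(coordQ k (rowB DA DB α.1 β.1 w)))
    refine ⟨aff DA α yA, aff DB β (coordQ k), ?_, fun g z => rfl⟩
    ext1 z
    rw [two_word, hyA, hα, neg_add_cancel, add_zero, CharTwo.add_self_eq_zero, sg_zero]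
    simp
  choose θA θB hθ hθA using repA
  choose ηA ηB hη hηB using repB
  have injLem : ∀ {K U : Type} [Group K] [Nontrivial U] (D : Data K U)
      (ζ : NZ U × U → K →* Equiv.Perm ℚ)
      (hζ : ∀ c g z, ζ c g z = (sg (L c.1.1 (D.q g)) : ℚ) * z + D.u c.1.1 g c.2)
      (g : K), (∀ c, ζ c g = 1) → g = 1 := by
    intro K U _ _ D ζ hζ g hg
    apply D.inj g
    intro α hα
    obtain ⟨k₁⟩ : Nonempty U := inferInstance
    have h1 : ∀ k z, (sg (L α (D.q g)) : ℚ) * z + D.u α g k = z := by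
      intro k z
      rw [← hζ (⟨α, hα⟩, k) g z, hg]
      rfl
    have h2 : ∀ k, D.u α g k = 0 := by
      intro k
      have := h1 k 0
      rw [mul_zero, zero_add] at this
      exact_mod_cast this
    refine ⟨?_, Finsupp.ext h2⟩
    have := h1 k₁ 1
    rw [h2 k₁, mul_one, Int.cast_zero, add_zero] at this
    exact sg_eq_one (by exact_mod_cast this)
  refine ⟨(NZ S × S → Equiv.Perm ℚ) × (NZ T × T → Equiv.Perm ℚ), inferInstance,
    (MonoidHom.pi θA).prod (MonoidHom.pi ηA), (MonoidHom.pi θB).prod (MonoidHom.pi ηB),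
    ?_, ?_, ?_⟩
  · rw [injective_iff_map_eq_one]
    intro g hg
    apply injLem DA θA hθA g
    intro c
    exact congrFun (congrArg Prod.fst hg) c
  · rw [injective_iff_map_eq_one]
    intro g hg
    apply injLem DB ηB hηB g
    intro c
    exact congrFun (congrArg Prod.snd hg) c
  · have hfst : ((w.map fun p => ((MonoidHom.pi θA).prod (MonoidHom.pi ηA)) p.1 *
        ((MonoidHom.pi θB).prod (MonoidHom.pi ηB)) p.2).prod).1 = 1 := by
      have h1 := map_list_prod (MonoidHom.fst (NZ S × S → Equiv.Perm ℚ)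
        (NZ T × T → Equiv.Perm ℚ)) (w.map fun p => ((MonoidHom.pi θA).prod (MonoidHom.pi ηA)) p.1 *
        ((MonoidHom.pi θB).prod (MonoidHom.pi ηB)) p.2)
      rw [List.map_map] at h1
      refine Eq.trans h1 ?_
      funext c
      rw [Pi.list_prod_apply, List.map_map]
      exact hθ c
    have hsnd : ((w.map fun p => ((MonoidHom.pi θA).prod (MonoidHom.pi ηA)) p.1 *
        ((MonoidHom.pi θB).prod (MonoidHom.pi ηB)) p.2).prod).2 = 1 := by
      have h1 := map_list_prod (MonoidHom.snd (NZ S × S → Equiv.Perm ℚ)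
        (NZ T × T → Equiv.Perm ℚ)) (w.map fun p => ((MonoidHom.pi θA).prod (MonoidHom.pi ηA)) p.1 *
        ((MonoidHom.pi θB).prod (MonoidHom.pi ηB)) p.2)
      rw [List.map_map] at h1
      refine Eq.trans h1 ?_
      funext c
      rw [Pi.list_prod_apply, List.map_map]
      exact hη c
    exact Prod.ext hfst hsnd

end two

/-- Passing to an arbitrary group containing the two coefficient groups. -/
theorem two_level {A B G H : Type} [Group A] [Group B] [Group G] [Group H]
    (jA : A →* G) (jB : B →* G) (hjA : Injective jA) (hjB : Injective jB)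
    (ιA : A →* H) (ιB : B →* H) (hA : Injective ιA) (hB : Injective ιB) (w : List (A × B))
    (hw : (w.map fun p => ιA p.1 * ιB p.2).prod = 1) :
    ∃ (K : Type) (_ : Group K) (ι : G →* K) (x : K), Injective ι ∧
      (w.map fun p => ι (jA p.1) * (x * ι (jB p.2) * x⁻¹)).prod = 1 := by
  obtain ⟨M, _, f, g, hf, hg, hfg⟩ := amalgam jA hjA ιA hA
  let e1 : B ≃* (f.comp jB).range := MonoidHom.ofInjective (hf.comp hjB)
  let e2 : B ≃* (g.comp ιB).range := MonoidHom.ofInjective (hg.comp hB)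
  let φ : (f.comp jB).range ≃* (g.comp ιB).range := e1.symm.trans e2
  refine ⟨HNNExtension M _ _ φ, inferInstance, HNNExtension.of.comp f, HNNExtension.t,
    by rw [MonoidHom.coe_comp]; exact (HNNExtension.of_injective (φ := φ)).comp hf, ?_⟩
  have key : ∀ b : B, (HNNExtension.t : HNNExtension M _ _ φ) *
      HNNExtension.of (f (jB b)) * HNNExtension.t⁻¹ = HNNExtension.of (g (ιB b)) := by
    intro b
    have h1 := HNNExtension.t_mul_of (φ := φ) (e1 b)
    have h2 : φ (e1 b) = e2 b := by simp [φ]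
    rw [h2] at h1
    have h3 : ((e1 b : (f.comp jB).range) : M) = f (jB b) := rfl
    have h4 : ((e2 b : (g.comp ιB).range) : M) = g (ιB b) := rfl
    rw [h3, h4] at h1
    rw [h1, mul_inv_cancel_right]
  have h5 : (w.map fun p => (HNNExtension.of.comp f : G →* HNNExtension M _ _ φ) (jA p.1) *
      (HNNExtension.t * (HNNExtension.of.comp f : G →* HNNExtension M _ _ φ) (jB p.2) *
        HNNExtension.t⁻¹)).prod =
      (HNNExtension.of.comp g) ((w.map fun p => ιA p.1 * ιB p.2).prod) := by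
    rw [map_list_prod, List.map_map]
    congr 2
    funext p
    have h6 : f (jA p.1) = g (ιA p.1) := DFunLike.congr_fun hfg p.1
    simp only [MonoidHom.comp_apply, comp_apply, map_mul, key, h6]
  rw [h5, hw, map_one]

end Pool.Agent.Work.MP_d45015_al.HW
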